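import Mathlib

set_option autoImplicit false

/-! # WG module BLA: choice of the slopes -/

namespace Pool.Agent.WG

open Finset Polynomial

private def BlaGood (F : Type) {E : Type} [Field F] [Field E] [Algebra F E] [DecidableEq E]
    (k : ℕ) (A : Finset E) : Prop :=
  ∀ S ⊆ A, S.card ≤ k → ∀ a ∈ S, ∀ t : E → F,
    ∑ b ∈ S.erase a, t b • (a - b)⁻¹ = 0 → ∀ b ∈ S.erase a, t b = 0

private theorem bla_param {F E : Type} [Field F] [Field E] [Algebra F E]
    (A : Finset E) (hA : A.Nonempty) (S : Finset E) (hS : S ⊆ A) (m : ℕ) (hm : S.card ≤ m)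
    (t : E → F) :
    ∃ p : Fin m → A × F, ∀ g : E → E,
      ∑ b ∈ S, t b • g b = ∑ i, (p i).2 • g ((p i).1 : E) := by
  obtain ⟨a0, ha0⟩ := hA
  obtain ⟨d, rfl⟩ := Nat.exists_eq_add_of_le hm
  let e : Fin S.card ≃ S := S.equivFin.symm
  refine ⟨Fin.append (fun j : Fin S.card => (⟨(e j : E), hS (e j).2⟩, t (e j : E)))
    (fun _ : Fin d => (⟨a0, ha0⟩, 0)), fun g => ?_⟩
  rw [Fin.sum_univ_add]
  simp only [Fin.append_left, Fin.append_right, zero_smul, sum_const_zero, add_zero]
  rw [← Finset.sum_coe_sort S (fun b => t b • g b)]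
  exact (Equiv.sum_comp e (fun b : S => t (b : E) • g (b : E))).symm

private theorem bla_step {F E : Type} [Field F] [Fintype F] [Field E] [Fintype E] [Algebra F E]
    [DecidableEq E] (k : ℕ) (hk : 2 ≤ k) (A : Finset E) (hA : BlaGood F k A)
    (hcard : A.card + A.card * (A.card * Fintype.card F) ^ (k - 1) +
      A.card * (A.card * Fintype.card F) ^ (k - 2) < Fintype.card E) :
    ∃ x, x ∉ A ∧ BlaGood F k (insert x A) := by
  classical
  let Q : (Fin (k - 1) → A × F) → E[X] := fun p =>
    ∑ i, C (algebraMap F E (p i).2) * ∏ c ∈ A.erase ((p i).1 : E), (X - C c)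
  let B2 : Finset E := univ.biUnion (fun p : Fin (k - 1) → A × F => (Q p).roots.toFinset)
  let B3 : Finset E := univ.image (fun ap : A × (Fin (k - 2) → A × F) =>
    (ap.1 : E) + (∑ i, (ap.2 i).2 • ((ap.1 : E) - ((ap.2 i).1 : E))⁻¹)⁻¹)
  have hQdeg : ∀ p, (Q p).roots.toFinset.card ≤ A.card := by
    intro p
    refine (Multiset.toFinset_card_le _).trans ((Polynomial.card_roots' _).trans ?_)
    refine Polynomial.natDegree_sum_le_of_forall_le _ _ (fun i _ => ?_)
    refine (Polynomial.natDegree_C_mul_le _ _).trans ?_
    refine (Polynomial.natDegree_prod_le _ _).trans ?_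
    simp only [Polynomial.natDegree_X_sub_C, sum_const, smul_eq_mul, mul_one]
    exact card_le_card (erase_subset _ _)
  have hB2 : B2.card ≤ A.card * (A.card * Fintype.card F) ^ (k - 1) := by
    refine card_biUnion_le.trans ?_
    refine (sum_le_sum (fun p _ => hQdeg p)).trans ?_
    rw [sum_const, card_univ, Fintype.card_fun, Fintype.card_prod, Fintype.card_coe,
      Fintype.card_fin, smul_eq_mul, mul_comm]
  have hB3 : B3.card ≤ A.card * (A.card * Fintype.card F) ^ (k - 2) := by
    refine card_image_le.trans ?_
    rw [card_univ, Fintype.card_prod, Fintype.card_fun, Fintype.card_prod, Fintype.card_coe,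
      Fintype.card_fin]
  obtain ⟨x, hx⟩ : ∃ x, x ∉ A ∪ B2 ∪ B3 := by
    by_contra h
    push Not at h
    have h1 : (univ : Finset E) ⊆ A ∪ B2 ∪ B3 := fun x _ => h x
    have h2 := card_le_card h1
    have h3 := card_union_le (A ∪ B2) B3
    have h4 := card_union_le A B2
    rw [card_univ] at h2
    omega
  rw [mem_union, mem_union, not_or, not_or] at hx
  obtain ⟨⟨hxA, hx2⟩, hx3⟩ := hx
  refine ⟨x, hxA, ?_⟩
  intro S hS hSk a ha t hsum b hb
  by_cases hxS : x ∈ S
  · by_cases hax : a = x
    · -- the new point is the centre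
      subst hax
      by_contra htb
      have hS1 : S.erase a ⊆ A := by
        intro y hy
        obtain ⟨h1, h2⟩ := mem_erase.1 hy
        exact (mem_insert.1 (hS h2)).resolve_left h1
      have hS1c : (S.erase a).card ≤ k - 1 := by
        rw [card_erase_of_mem ha]
        omega
      obtain ⟨p, hp⟩ := bla_param A ⟨b, hS1 hb⟩ (S.erase a) hS1 (k - 1) hS1c t
      have hev : ∀ y, (Q p).eval y =
          ∑ b' ∈ S.erase a, t b' • ∏ c ∈ A.erase b', (y - c) := by
        intro y
        rw [hp (fun b' => ∏ c ∈ A.erase b', (y - c))]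
        simp only [Q, Polynomial.eval_finsetSum, Polynomial.eval_mul, Polynomial.eval_C,
          Polynomial.eval_prod, Polynomial.eval_sub, Polynomial.eval_X, Algebra.smul_def]
      have hQ0 : Q p ≠ 0 := by
        intro h0
        have h1 := hev b
        rw [h0, Polynomial.eval_zero, Finset.sum_eq_single_of_mem b hb] at h1
        · rw [eq_comm, smul_eq_zero] at h1
          rcases h1 with h1 | h1
          · exact htb h1
          · obtain ⟨c, hc, hc0⟩ := Finset.prod_eq_zero_iff.1 h1
            exact (mem_erase.1 hc).1 (sub_eq_zero.1 hc0).symm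
        · intro b' hb' hne
          rw [Finset.prod_eq_zero (mem_erase.2 ⟨hne.symm, hS1 hb⟩) (sub_self b), smul_zero]
      have hroot : (Q p).eval a = 0 := by
        rw [hev]
        have h1 : ∀ b' ∈ S.erase a, t b' • ∏ c ∈ A.erase b', (a - c) =
            (∏ c ∈ A, (a - c)) * (t b' • (a - b')⁻¹) := by
          intro b' hb'
          have hne : a - b' ≠ 0 := by
            intro h
            exact (mem_erase.1 hb').1 (sub_eq_zero.1 h).symm
          rw [← Finset.mul_prod_erase A (fun c => a - c) (hS1 hb'), Algebra.smul_def,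
            Algebra.smul_def]
          field_simp
        rw [Finset.sum_congr rfl h1, ← Finset.mul_sum, hsum, mul_zero]
      apply hx2
      rw [mem_biUnion]
      refine ⟨p, mem_univ _, ?_⟩
      rw [Multiset.mem_toFinset, Polynomial.mem_roots hQ0]
      exact hroot
    · -- the new point is a neighbour
      have haA : a ∈ A := (mem_insert.1 (hS ha)).resolve_left hax
      have hxe : x ∈ S.erase a := mem_erase.2 ⟨fun h => hax h.symm, hxS⟩
      have hS2 : (S.erase a).erase x ⊆ A := by
        intro y hy
        obtain ⟨h1, h2⟩ := mem_erase.1 hy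
        obtain ⟨h3, h4⟩ := mem_erase.1 h2
        exact (mem_insert.1 (hS h4)).resolve_left h1
      have hS2c : ((S.erase a).erase x).card ≤ k - 2 := by
        rw [card_erase_of_mem hxe, card_erase_of_mem ha]
        omega
      rw [← Finset.add_sum_erase _ _ hxe] at hsum
      by_cases htx : t x = 0
      · rw [htx, zero_smul, zero_add] at hsum
        have hins : (insert a ((S.erase a).erase x)).erase a = (S.erase a).erase x := by
          rw [erase_insert]
          intro h
          exact (mem_erase.1 (mem_erase.1 h).2).1 rfl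
        have h1 := hA (insert a ((S.erase a).erase x)) (insert_subset haA hS2)
          ((card_insert_le _ _).trans (by omega)) a (mem_insert_self _ _) t
          (by rw [hins]; exact hsum)
        rw [hins] at h1
        by_cases hbx : b = x
        · rw [hbx, htx]
        · exact h1 b (mem_erase.2 ⟨hbx, hb⟩)
      · exfalso
        apply hx3
        obtain ⟨p, hp⟩ := bla_param A ⟨a, haA⟩ ((S.erase a).erase x) hS2 (k - 2) hS2c
          (fun y => (t x)⁻¹ * t y)
        rw [mem_image]
        refine ⟨(⟨a, haA⟩, p), mem_univ _, ?_⟩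
        have h1 := hp (fun y => (a - y)⁻¹)
        simp only at h1 ⊢
        rw [← h1]
        have h2 : ∑ y ∈ (S.erase a).erase x, ((t x)⁻¹ * t y) • (a - y)⁻¹ = -(a - x)⁻¹ := by
          have h3 : ∑ y ∈ (S.erase a).erase x, ((t x)⁻¹ * t y) • (a - y)⁻¹ =
              (t x)⁻¹ • ∑ y ∈ (S.erase a).erase x, t y • (a - y)⁻¹ := by
            rw [Finset.smul_sum]
            exact Finset.sum_congr rfl (fun y _ => mul_smul _ _ _)
          rw [h3, eq_neg_of_add_eq_zero_right hsum, smul_neg, smul_smul,
            inv_mul_cancel₀ htx, one_smul]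
        rw [h2, neg_inv, inv_inv]
        ring
  · have hSA : S ⊆ A := by
      intro y hy
      refine (mem_insert.1 (hS hy)).resolve_left ?_
      rintro rfl
      exact hxS hy
    exact hA S hSA hSk a ha t hsum b hb

theorem slopes (F E : Type) [Field F] [Fintype F] [Field E] [Fintype E] [Algebra F E] (v k : ℕ)
    (hk : 2 ≤ k) (hE : (k + 1) * (v * Fintype.card F) ^ k < Fintype.card E) :
    ∃ α : Fin v → E, Function.Injective α ∧
      ∀ S : Finset (Fin v), S.card ≤ k → ∀ i ∈ S, ∀ t : Fin v → F,
        ∑ j ∈ S.erase i, t j • (α i - α j)⁻¹ = 0 → ∀ j ∈ S.erase i, t j = 0 := by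
  classical
  have hq : 0 < Fintype.card F := Fintype.card_pos
  have hgood : ∀ n ≤ v, ∃ A : Finset E, A.card = n ∧ BlaGood F k A := by
    intro n
    induction n with
    | zero =>
      intro _
      refine ⟨∅, card_empty, ?_⟩
      intro S hS _ a ha
      exact absurd (hS ha) (notMem_empty _)
    | succ n ih =>
      intro hn
      obtain ⟨A, hAc, hA⟩ := ih (by omega)
      have hvq : 1 ≤ v * Fintype.card F := Nat.mul_pos (by omega) hq
      have hle : n ≤ v * Fintype.card F := by nlinarith
      have hle2 : n * Fintype.card F ≤ v * Fintype.card F := Nat.mul_le_mul_right _ (by omega)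
      have e1 : n ≤ (v * Fintype.card F) ^ k := hle.trans (Nat.le_self_pow (by omega) _)
      have e2 : n * (n * Fintype.card F) ^ (k - 1) ≤ (v * Fintype.card F) ^ k := by
        calc n * (n * Fintype.card F) ^ (k - 1)
            ≤ (v * Fintype.card F) * (v * Fintype.card F) ^ (k - 1) :=
              Nat.mul_le_mul hle (Nat.pow_le_pow_left hle2 _)
          _ = (v * Fintype.card F) ^ k := by
              rw [← pow_succ']
              congr 1
              omega
      have e3 : n * (n * Fintype.card F) ^ (k - 2) ≤ (v * Fintype.card F) ^ k := by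
        calc n * (n * Fintype.card F) ^ (k - 2)
            ≤ (v * Fintype.card F) * (v * Fintype.card F) ^ (k - 2) :=
              Nat.mul_le_mul hle (Nat.pow_le_pow_left hle2 _)
          _ = (v * Fintype.card F) ^ (k - 1) := by
              rw [← pow_succ']
              congr 1
              omega
          _ ≤ (v * Fintype.card F) ^ k := Nat.pow_le_pow_right hvq (by omega)
      obtain ⟨x, hxA, hx⟩ := bla_step k hk A hA (by
        rw [hAc]
        nlinarith)
      exact ⟨insert x A, by rw [card_insert_of_notMem hxA, hAc], hx⟩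
  obtain ⟨A, hAc, hA⟩ := hgood v le_rfl
  let e : A ≃ Fin v := A.equivFinOfCardEq hAc
  let α : Fin v → E := fun i => ((e.symm i : A) : E)
  have hinj : Function.Injective α := fun i j h => e.symm.injective (Subtype.ext h)
  refine ⟨α, hinj, ?_⟩
  intro S hSk i hi t hsum j hj
  let f : Fin v ↪ E := ⟨α, hinj⟩
  have hext : ∀ l, Function.extend α t 0 (α l) = t l := fun l => hinj.extend_apply t 0 l
  have h1 := hA (S.map f) (by
      intro y hy
      obtain ⟨l, _, rfl⟩ := mem_map.1 hy
      exact (e.symm l).2) (by rw [card_map]; exact hSk) (α i) (mem_map_of_mem f hi)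
      (Function.extend α t 0) (by
      have h2 : (S.map f).erase (α i) = (S.erase i).map f := (map_erase f S i).symm
      rw [h2, sum_map, ← hsum]
      refine sum_congr rfl (fun l _ => ?_)
      change Function.extend α t 0 (α l) • (α i - α l)⁻¹ = _
      rw [hext]) (α j) (by
      have h2 : (S.map f).erase (α i) = (S.erase i).map f := (map_erase f S i).symm
      rw [h2]
      exact mem_map_of_mem f hj)
  rw [hext] at h1
  exact h1

end Pool.Agent.WG
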