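import Mathlib

set_option autoImplicit false

/-! Module BLL: prescribing the labels on one block. -/

namespace Pool.Agent.WG

theorem labels_fin (F E : Type) [Field F] [Field E] [Algebra F E] {ι : Type} [Fintype ι]
    [DecidableEq ι] (α : ι → E)
    (hS : ∀ i, ∀ t : ι → F, ∑ j, (if j = i then 0 else t j • (α i - α j)⁻¹) = 0 →
      ∀ j, j ≠ i → t j = 0)
    (φ : E →ₗ[F] F) (hφ : φ ≠ 0) (μ : ι → ι → F) (hμ : ∀ i j, μ i j = μ j i) :
    ∃ c : ι → E, ∀ i j, i ≠ j → φ ((c i - c j) * (α i - α j)⁻¹) = μ i j := by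
  classical
  let L : (ι → E) →ₗ[F] (ι × ι → F) := LinearMap.pi (fun p =>
    φ ∘ₗ (LinearMap.mulRight F ((α p.1 - α p.2)⁻¹)) ∘ₗ
      ((LinearMap.proj (R := F) (φ := fun _ : ι => E) p.1 : (ι → E) →ₗ[F] E) -
        (LinearMap.proj (R := F) (φ := fun _ : ι => E) p.2 : (ι → E) →ₗ[F] E)))
  have hL : ∀ c p, L c p = φ ((c p.1 - c p.2) * (α p.1 - α p.2)⁻¹) := by
    intro c p
    rfl
  let μ' : ι × ι → F := fun p => if p.1 = p.2 then 0 else μ p.1 p.2
  by_cases hmem : μ' ∈ LinearMap.range L
  · obtain ⟨c, hc⟩ := hmem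
    refine ⟨c, fun i j hij => ?_⟩
    have := congrFun hc (i, j)
    rw [hL] at this
    rw [this]
    simp only [μ']
    rw [if_neg hij]
  · exfalso
    obtain ⟨f, hf1, hf2⟩ := Submodule.exists_le_ker_of_notMem hmem
    let T : ι → ι → F := fun i j => f (fun q => if (i, j) = q then 1 else 0)
    have hfT : ∀ v : ι × ι → F, f v = ∑ i, ∑ j, v (i, j) * T i j := by
      intro v
      rw [LinearMap.pi_apply_eq_sum_univ f v, Fintype.sum_prod_type]
      rfl
    have hT0 : ∀ c, f (L c) = 0 := fun c => hf2 (LinearMap.mem_range_self L c)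
    have hanti : ∀ i j, j ≠ i → T i j + T j i = 0 := by
      intro i
      apply hS i (fun j => T i j + T j i)
      set y : E := ∑ j, (if j = i then 0 else (T i j + T j i) • (α i - α j)⁻¹) with hy
      by_contra hy0
      apply hφ
      ext z
      rw [LinearMap.zero_apply]
      -- the vector supported at `i`
      have h1 := hT0 (Pi.single i (z * y⁻¹))
      rw [hfT] at h1
      have h2 : ∀ a b : ι, L (Pi.single i (z * y⁻¹)) (a, b) * T a b =
          (if a = i then (if b = i then 0 else φ (z * y⁻¹ * (α i - α b)⁻¹) * T i b) else 0) +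
          (if b = i then (if a = i then 0 else φ (z * y⁻¹ * (α i - α a)⁻¹) * T a i) else 0) := by
        intro a b
        rw [hL]
        by_cases ha : a = i
        · subst ha
          by_cases hb : b = a
          · subst hb
            simp
          · simp only [Pi.single_eq_same, if_true, if_neg hb]
            rw [Pi.single_eq_of_ne hb, sub_zero, add_zero]
        · by_cases hb : b = i
          · subst hb
            simp only [Pi.single_eq_same, if_neg ha, if_true]
            rw [Pi.single_eq_of_ne ha, zero_sub, zero_add]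
            congr 2
            rw [← neg_sub (α b) (α a), inv_neg, mul_neg, neg_mul, neg_neg]
          · simp only [if_neg ha, if_neg hb]
            rw [Pi.single_eq_of_ne ha, Pi.single_eq_of_ne hb]
            simp
      simp only [h2] at h1
      simp only [Finset.sum_add_distrib] at h1
      rw [Finset.sum_comm (f := fun a b => if b = i then
        (if a = i then (0 : F) else φ (z * y⁻¹ * (α i - α a)⁻¹) * T a i) else 0)] at h1
      have e1 : ∑ a : ι, ∑ b : ι, (if a = i then (if b = i then (0 : F) else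
          φ (z * y⁻¹ * (α i - α b)⁻¹) * T i b) else 0) =
          ∑ b : ι, (if b = i then (0 : F) else φ (z * y⁻¹ * (α i - α b)⁻¹) * T i b) := by
        rw [Finset.sum_eq_single i]
        · simp
        · intro a _ ha
          simp [ha]
        · intro h; exact absurd (Finset.mem_univ i) h
      have e2 : ∑ b : ι, ∑ a : ι, (if b = i then (if a = i then (0 : F) else
          φ (z * y⁻¹ * (α i - α a)⁻¹) * T a i) else 0) =
          ∑ a : ι, (if a = i then (0 : F) else φ (z * y⁻¹ * (α i - α a)⁻¹) * T a i) := by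
        rw [Finset.sum_eq_single i]
        · simp
        · intro a _ ha
          simp [ha]
        · intro h; exact absurd (Finset.mem_univ i) h
      rw [e1, e2, ← Finset.sum_add_distrib] at h1
      have e3 : ∀ b : ι, ((if b = i then (0 : F) else φ (z * y⁻¹ * (α i - α b)⁻¹) * T i b) +
          (if b = i then (0 : F) else φ (z * y⁻¹ * (α i - α b)⁻¹) * T b i)) =
          φ (z * y⁻¹ * (if b = i then 0 else (T i b + T b i) • (α i - α b)⁻¹)) := by
        intro b
        by_cases hb : b = i
        · simp [hb]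
        · simp only [if_neg hb]
          rw [mul_smul_comm, map_smul, smul_eq_mul]
          ring
      simp only [e3] at h1
      rw [← map_sum, ← Finset.mul_sum, ← hy, mul_assoc, inv_mul_cancel₀ hy0, mul_one] at h1
      exact h1
    apply hf1
    rw [hfT, ← Fintype.sum_prod_type (f := fun p : ι × ι => μ' (p.1, p.2) * T p.1 p.2)]
    refine Finset.sum_involution (fun p _ => (p.2, p.1)) ?_ ?_ ?_ ?_
    · rintro ⟨i, j⟩ _
      by_cases hij : i = j
      · subst hij
        simp [μ']
      · have hji : j ≠ i := fun h => hij h.symm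
        simp only [μ']
        rw [if_neg hij, if_neg hji, ← hμ i j, ← mul_add, hanti i j hji, mul_zero]
    · rintro ⟨i, j⟩ _ hne hp
      apply hne
      have : j = i := (Prod.mk.inj hp).1
      subst this
      simp [μ']
    · intro p _; exact Finset.mem_univ _
    · rintro ⟨i, j⟩ _; rfl

theorem labels (F E : Type) [Field F] [Fintype F] [Field E] [Fintype E] [Algebra F E] {ι : Type}
    [DecidableEq ι] (α : ι → E) (S : Finset ι)
    (hS : ∀ i ∈ S, ∀ t : ι → F,
        ∑ j ∈ S.erase i, t j • (α i - α j)⁻¹ = 0 → ∀ j ∈ S.erase i, t j = 0)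
    (φ : E →ₗ[F] F) (hφ : φ ≠ 0) (μ : ι → ι → F) (hμ : ∀ i j, μ i j = μ j i) :
    ∃ c : ι → E, ∀ i ∈ S, ∀ j ∈ S, i ≠ j → φ ((c i - c j) * (α i - α j)⁻¹) = μ i j := by
  classical
  have hS' : ∀ i : {x // x ∈ S}, ∀ t : {x // x ∈ S} → F,
      ∑ j, (if j = i then 0 else t j • (α i.1 - α j.1)⁻¹) = 0 → ∀ j, j ≠ i → t j = 0 := by
    rintro ⟨i, hi⟩ t ht ⟨j, hj⟩ hji
    have hji' : j ≠ i := fun h => hji (Subtype.ext h)
    have key : ∑ x ∈ S.erase i, (if h : x ∈ S then t ⟨x, h⟩ else 0) • (α i - α x)⁻¹ = 0 := by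
      rw [← ht]
      have h1 : ∑ x ∈ S.erase i, (if h : x ∈ S then t ⟨x, h⟩ else 0) • (α i - α x)⁻¹ =
          ∑ x ∈ S, (if x = i then 0 else
            (if h : x ∈ S then t ⟨x, h⟩ else 0) • (α i - α x)⁻¹) := by
        rw [← Finset.add_sum_erase S _ hi, if_pos rfl, zero_add]
        apply Finset.sum_congr rfl
        intro x hx
        rw [if_neg (Finset.ne_of_mem_erase hx)]
      rw [h1, ← Finset.sum_coe_sort S]
      apply Finset.sum_congr rfl
      rintro ⟨x, hx⟩ _
      by_cases hxi : x = i
      · subst hxi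
        simp
      · have hxi' : (⟨x, hx⟩ : {x // x ∈ S}) ≠ ⟨i, hi⟩ := fun h => hxi (congrArg Subtype.val h)
        simp only [if_neg hxi, if_neg hxi', dif_pos hx]
    have := hS i hi (fun x => if h : x ∈ S then t ⟨x, h⟩ else 0) key j
      (Finset.mem_erase.2 ⟨hji', hj⟩)
    simpa only [dif_pos hj] using this
  obtain ⟨c, hc⟩ := labels_fin F E (ι := {x // x ∈ S}) (fun i => α i.1) hS' φ hφ
    (fun i j => μ i.1 j.1) (fun i j => hμ _ _)
  refine ⟨fun i => if h : i ∈ S then c ⟨i, h⟩ else 0, fun i hi j hj hij => ?_⟩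
  simp only [dif_pos hi, dif_pos hj]
  exact hc ⟨i, hi⟩ ⟨j, hj⟩ (fun h => hij (congrArg Subtype.val h))

end Pool.Agent.WG
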