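import Pool.Agent.WB.Basic
import Pool.Agent.WB.ONE
import Pool.Agent.WG.BLA
import Pool.Agent.WG.BLL

set_option autoImplicit false

/-! # BLG: the blow-up theorem -/

namespace Pool.Agent.WG

open Pool.Agent.WB

/-- the index set of the blocks of the multiset design -/
abbrev BIdx {v : ℕ} (k : ℕ) (f : Finset (Fin v) → ℕ) : Type :=
  Σ B : {B : Finset (Fin v) // B.card = k}, Fin (f B.1)

/-- symmetric labels: the blocks through a pair are numbered by the elements of `F` -/
theorem blg_labels {v k : ℕ} (f : Finset (Fin v) → ℕ) (F : Type) [Fintype F]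
    (hf : ∀ x y : Fin v, x ≠ y →
      ∑ B ∈ (Finset.univ.powersetCard k).filter (fun B => x ∈ B ∧ y ∈ B), f B = Fintype.card F)
    [Nonempty F] :
    ∃ L : Fin v → Fin v → BIdx k f → F, (∀ x y p, L x y p = L y x p) ∧
      ∀ x y, x ≠ y → ∀ a : F, ∃! p : BIdx k f, x ∈ p.1.1 ∧ y ∈ p.1.1 ∧ L x y p = a := by
  classical
  have hcard : ∀ x y : Fin v, x ≠ y →
      Fintype.card {p : BIdx k f // x ∈ p.1.1 ∧ y ∈ p.1.1} = Fintype.card F := by
    intro x y hxy
    rw [← hf x y hxy]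
    have e : {p : BIdx k f // x ∈ p.1.1 ∧ y ∈ p.1.1} ≃
        Σ B : {B : Finset (Fin v) // B ∈ (Finset.univ.powersetCard k).filter
          (fun B => x ∈ B ∧ y ∈ B)}, Fin (f B.1) :=
      { toFun := fun p => ⟨⟨p.1.1.1, by
          rw [Finset.mem_filter, Finset.mem_powersetCard]
          exact ⟨⟨Finset.subset_univ _, p.1.1.2⟩, p.2⟩⟩, p.1.2⟩
        invFun := fun p => ⟨⟨⟨p.1.1, by
          have := p.1.2
          rw [Finset.mem_filter, Finset.mem_powersetCard] at this
          exact this.1.2⟩, p.2⟩, by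
          have := p.1.2
          rw [Finset.mem_filter, Finset.mem_powersetCard] at this
          exact this.2⟩
        left_inv := fun p => rfl
        right_inv := fun p => rfl }
    rw [Fintype.card_congr e, Fintype.card_sigma]
    simp only [Fintype.card_fin]
    rw [Finset.sum_coe_sort ((Finset.univ.powersetCard k).filter
      (fun B => x ∈ B ∧ y ∈ B)) f]
  have hex : ∀ x y : Fin v, ∃ g : BIdx k f → F, x ≠ y →
      ∀ a : F, ∃! p : BIdx k f, x ∈ p.1.1 ∧ y ∈ p.1.1 ∧ g p = a := by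
    intro x y
    by_cases hxy : x = y
    · exact ⟨fun _ => Classical.arbitrary F, fun h => absurd hxy h⟩
    · have e : {p : BIdx k f // x ∈ p.1.1 ∧ y ∈ p.1.1} ≃ F :=
        Fintype.equivOfCardEq (hcard x y hxy)
      refine ⟨fun p => if h : x ∈ p.1.1 ∧ y ∈ p.1.1 then e ⟨p, h⟩ else Classical.arbitrary F,
        fun _ a => ?_⟩
      refine ⟨(e.symm a).1, ⟨(e.symm a).2.1, (e.symm a).2.2, ?_⟩, ?_⟩
      · simp only
        rw [dif_pos (e.symm a).2]
        exact e.apply_symm_apply a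
      · rintro p ⟨h1, h2, h3⟩
        simp only at h3
        rw [dif_pos ⟨h1, h2⟩] at h3
        rw [← h3, e.symm_apply_apply]
  choose g hg using hex
  refine ⟨fun x y => g (min x y) (max x y), fun x y p => by
    beta_reduce
    rw [min_comm, max_comm], ?_⟩
  intro x y hxy a
  beta_reduce
  rcases lt_or_gt_of_ne hxy with h | h
  · rw [min_eq_left h.le, max_eq_right h.le]
    exact hg x y hxy a
  · rw [min_eq_right h.le, max_eq_left h.le]
    obtain ⟨p, ⟨h1, h2, h3⟩, hU⟩ := hg y x hxy.symm a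
    exact ⟨p, ⟨h2, h1, h3⟩, fun p' h' => hU p' ⟨h'.2.1, h'.1, h'.2.2⟩⟩

theorem blg_core (F E : Type) [Field F] [Fintype F] [Field E] [Fintype E] [Algebra F E]
    {v k : ℕ} (α : Fin v → E) (hinj : Function.Injective α)
    (hα : ∀ S : Finset (Fin v), S.card ≤ k → ∀ i ∈ S, ∀ t : Fin v → F,
        ∑ j ∈ S.erase i, t j • (α i - α j)⁻¹ = 0 → ∀ j ∈ S.erase i, t j = 0)
    (φ : E →ₗ[F] F) (hφ : φ ≠ 0) (f : Finset (Fin v) → ℕ)
    (hf : ∀ x y : Fin v, x ≠ y →
      ∑ B ∈ (Finset.univ.powersetCard k).filter (fun B => x ∈ B ∧ y ∈ B), f B =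
        Fintype.card F) :
    CDec {k} (MP (Prod.fst : Fin v × E → Fin v)) := by
  classical
  obtain ⟨L, hsym, hL⟩ := blg_labels (k := k) f F hf
  have hc : ∀ p : BIdx k f, ∃ c : Fin v → E, ∀ i ∈ p.1.1, ∀ j ∈ p.1.1, i ≠ j →
      φ ((c i - c j) * (α i - α j)⁻¹) = L i j p := fun p =>
    labels F E α p.1.1 (hα p.1.1 p.1.2.le) φ hφ (fun i j => L i j p) (fun i j => hsym i j p)
  choose c hc using hc
  -- the blocks
  let blk : (p : BIdx k f) → E → E → Finset (Fin v × E) := fun p s τ =>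
    p.1.1.map ⟨fun i => (i, α i * s + c p i + τ), fun i j h => congrArg Prod.fst h⟩
  have hmem : ∀ p s τ (x : Fin v × E), x ∈ blk p s τ ↔
      x.1 ∈ p.1.1 ∧ α x.1 * s + c p x.1 + τ = x.2 := by
    intro p s τ x
    simp only [blk, Finset.mem_map]
    constructor
    · rintro ⟨i, hi, rfl⟩
      exact ⟨hi, rfl⟩
    · rintro ⟨h1, h2⟩
      exact ⟨x.1, h1, Prod.ext rfl h2⟩
  refine ⟨{C | ∃ (p : BIdx k f) (s τ : E), φ s = 0 ∧ blk p s τ = C}, ?_, ?_⟩
  · rintro C ⟨p, s, τ, -, rfl⟩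
    refine ⟨?_, ?_⟩
    · simp only [blk, Finset.card_map]
      exact p.1.2
    · intro x hx y hy hxy
      rw [Finset.mem_coe, hmem] at hx hy
      rw [MP_adj]
      intro h
      apply hxy
      refine Prod.ext h ?_
      rw [← hx.2, ← hy.2, h]
  · rintro ⟨x, a⟩ ⟨y, b⟩ hxy
    rw [MP_adj] at hxy
    simp only at hxy
    have hd : α x - α y ≠ 0 := sub_ne_zero.2 fun h => hxy (hinj h)
    obtain ⟨p, ⟨hpx, hpy, hpL⟩, hpU⟩ := hL x y hxy (φ ((a - b) * (α x - α y)⁻¹))
    -- parameters are determined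
    have key : ∀ (p' : BIdx k f) (s' τ' : E), φ s' = 0 → (x, a) ∈ blk p' s' τ' →
        (y, b) ∈ blk p' s' τ' →
        p' = p ∧ s' = (a - b) * (α x - α y)⁻¹ - (c p' x - c p' y) * (α x - α y)⁻¹ ∧
          τ' = a - α x * s' - c p' x := by
      intro p' s' τ' hs' h1 h2
      rw [hmem] at h1 h2
      obtain ⟨h1, h1'⟩ := h1
      obtain ⟨h2, h2'⟩ := h2
      simp only at h1 h1' h2 h2'
      have e1 : s' = (a - b) * (α x - α y)⁻¹ - (c p' x - c p' y) * (α x - α y)⁻¹ := by
        rw [← h1', ← h2']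
        field_simp
        ring
      refine ⟨?_, e1, ?_⟩
      · apply hpU p'
        refine ⟨h1, h2, ?_⟩
        rw [← hc p' x h1 y h2 hxy]
        have h3 := hs'
        rw [e1, map_sub, sub_eq_zero] at h3
        exact h3.symm
      · rw [← h1']; ring
    set s : E := (a - b) * (α x - α y)⁻¹ - (c p x - c p y) * (α x - α y)⁻¹ with hs
    set τ : E := a - α x * s - c p x with hτ
    have hs0 : φ s = 0 := by
      rw [hs, map_sub, hc p x hpx y hpy hxy, hpL, sub_self]
    refine ⟨blk p s τ, ⟨⟨p, s, τ, hs0, rfl⟩, ?_, ?_⟩, ?_⟩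
    · rw [hmem]
      exact ⟨hpx, by simp only [hτ]; ring⟩
    · rw [hmem]
      refine ⟨hpy, ?_⟩
      simp only
      have e2 : (α x - α y) * s = (a - b) - (c p x - c p y) := by
        rw [hs, mul_sub, mul_comm (a - b), mul_comm (c p x - c p y), mul_inv_cancel_left₀ hd,
          mul_inv_cancel_left₀ hd]
      rw [hτ]
      linear_combination -e2
    · rintro C ⟨⟨p', s', τ', hs', rfl⟩, h1, h2⟩
      obtain ⟨hp, e1, e2⟩ := key p' s' τ' hs' h1 h2
      subst hp
      rw [← hs] at e1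
      subst e1
      rw [e2]

theorem blowup {q n v k : ℕ} (hq : IsPrimePow q) (hk : 2 ≤ k)
    (hn : (k + 1) * (v * q) ^ k < q ^ n)
    (f : Finset (Fin v) → ℕ)
    (hf : ∀ x y : Fin v, x ≠ y →
      ∑ B ∈ (Finset.univ.powersetCard k).filter (fun B => x ∈ B ∧ y ∈ B), f B = q) :
    GD k (q ^ n) v := by
  classical
  rcases Nat.eq_zero_or_pos v with rfl | hv
  · exact GD_v0 _ _
  have hn0 : n ≠ 0 := by
    rintro rfl
    rw [pow_zero] at hn
    have : 0 < (v * q) ^ k := pow_pos (Nat.mul_pos hv hq.pos) k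
    nlinarith
  have hne : Nonempty (Fin q) := ⟨⟨0, hq.pos⟩⟩
  obtain ⟨hF⟩ : Nonempty (Field (Fin q)) := by
    rw [Fintype.nonempty_field_iff]
    simpa using hq
  obtain ⟨p, hp⟩ := CharP.exists (Fin q)
  have hpp : Fact p.Prime := ⟨CharP.char_is_prime (Fin q) p⟩
  have hnz : NeZero n := ⟨hn0⟩
  have hEc : Nat.card (FiniteField.Extension (Fin q) p n) = q ^ n := by
    rw [FiniteField.natCard_extension, Nat.card_eq_fintype_card, Fintype.card_fin]
  have hEf : Fintype (FiniteField.Extension (Fin q) p n) := Fintype.ofFinite _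
  have hEc' : Fintype.card (FiniteField.Extension (Fin q) p n) = q ^ n := by
    rw [← Nat.card_eq_fintype_card, hEc]
  obtain ⟨α, hinj, hα⟩ := slopes (Fin q) (FiniteField.Extension (Fin q) p n) v k hk
    (by rw [hEc', Fintype.card_fin]; exact hn)
  obtain ⟨φ, hφ⟩ : ∃ φ : FiniteField.Extension (Fin q) p n →ₗ[Fin q] Fin q, φ 1 ≠ 0 := by
    by_contra hcon
    push Not at hcon
    exact one_ne_zero ((Module.forall_dual_apply_eq_zero_iff (Fin q)
      (1 : FiniteField.Extension (Fin q) p n)).1 hcon)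
  have hφ0 : φ ≠ 0 := by
    rintro rfl
    exact hφ rfl
  have main := blg_core (Fin q) (FiniteField.Extension (Fin q) p n) (k := k) α hinj hα φ hφ0 f
    (by rw [Fintype.card_fin]; exact hf)
  exact GD.of_prod (by simp) hEc main

end Pool.Agent.WG
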