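import Mathlib

set_option autoImplicit false

namespace Pool.Agent.WG

open Finset

section CYC1

variable (F : Type) [Field F] [Fintype F] [DecidableEq F] (H : Subgroup Fˣ)

open Classical in
/-- The coset `c H` as a finset of `F`. -/
noncomputable def cset (c : Fˣ) : Finset F :=
  univ.filter (fun x => ∃ h ∈ H, x = (c : F) * (h : Fˣ))

open Classical in
/-- The elements of `H`. -/
noncomputable def Hset : Finset Fˣ := univ.filter (fun h => h ∈ H)

theorem mem_cset (c : Fˣ) (x : F) : x ∈ cset F H c ↔ ∃ h ∈ H, x = (c : F) * (h : Fˣ) := by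
  simp [cset]

theorem mem_Hset (h : Fˣ) : h ∈ Hset F H ↔ h ∈ H := by simp [Hset]

theorem unit_mem_cset (c u : Fˣ) : (u : F) ∈ cset F H c ↔ c⁻¹ * u ∈ H := by
  rw [mem_cset]
  constructor
  · rintro ⟨h, hh, he⟩
    have : u = c * h := by
      apply Units.ext; rw [he]; simp
    rw [this]; simpa using hh
  · intro h
    exact ⟨c⁻¹ * u, h, by simp⟩

theorem zero_notMem_cset (c : Fˣ) : (0 : F) ∉ cset F H c := by
  rw [mem_cset]
  rintro ⟨h, _, he⟩
  exact (mul_ne_zero c.ne_zero h.ne_zero) he.symm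

theorem card_cset (c : Fˣ) : (cset F H c).card = (Hset F H).card := by
  classical
  have : cset F H c = (Hset F H).image (fun h : Fˣ => (c : F) * (h : Fˣ)) := by
    ext x
    rw [mem_cset, mem_image]
    constructor
    · rintro ⟨h, hh, he⟩; exact ⟨h, (mem_Hset F H h).2 hh, he.symm⟩
    · rintro ⟨h, hh, he⟩; exact ⟨h, (mem_Hset F H h).1 hh, he.symm⟩
  rw [this, card_image_of_injective]
  intro a b hab
  exact Units.ext (mul_left_cancel₀ c.ne_zero hab)

theorem cset_mul (c h : Fˣ) (hh : h ∈ H) : cset F H (c * h) = cset F H c := by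
  ext x
  rw [mem_cset, mem_cset]
  constructor
  · rintro ⟨k, hk, he⟩
    exact ⟨h * k, H.mul_mem hh hk, by rw [he]; simp [mul_assoc]⟩
  · rintro ⟨k, hk, he⟩
    exact ⟨h⁻¹ * k, H.mul_mem (H.inv_mem hh) hk, by rw [he]; simp [mul_assoc]⟩

/-- For a given nonzero `u` the number of units `c` with `u ∈ c H`. -/
theorem card_c (u : Fˣ) : (univ.filter (fun c : Fˣ => (u : F) ∈ cset F H c)).card =
    (Hset F H).card := by
  classical
  have : univ.filter (fun c : Fˣ => (u : F) ∈ cset F H c) = (Hset F H).image (fun h => u * h⁻¹) := by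
    ext c
    rw [mem_filter, mem_image, unit_mem_cset]
    constructor
    · rintro ⟨_, h⟩
      exact ⟨c⁻¹ * u, (mem_Hset F H _).2 h, by group⟩
    · rintro ⟨h, hh, rfl⟩
      refine ⟨mem_univ _, ?_⟩
      have := (mem_Hset F H h).1 hh
      have e : (u * h⁻¹)⁻¹ * u = h := by group
      rw [e]; exact this
  rw [this, card_image_of_injective]
  intro a b hab
  simpa using hab

theorem card_pairs_le {x y : F} (hxy : x ≠ y) :
    ((univ ×ˢ univ : Finset (Fˣ × F)).filter
      (fun p => x - p.2 ∈ cset F H p.1 ∧ y - p.2 ∈ cset F H p.1)).card ≤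
      (Hset F H).card * ((Hset F H).card - 1) := by
  classical
  -- inject into (Hset) × (Hset.erase 1)
  have hcard : (Hset F H).card * ((Hset F H).card - 1) =
      ((Hset F H) ×ˢ ((Hset F H).erase 1)).card := by
    rw [card_product, card_erase_of_mem ((mem_Hset F H 1).2 H.one_mem)]
  rw [hcard]
  -- the map : (c, a) ↦ (c⁻¹ (x - a), (y - a) / (x - a))
  let g : Fˣ × F → Fˣ × Fˣ := fun p =>
    (p.1⁻¹ * (if h : x - p.2 = 0 then 1 else Units.mk0 (x - p.2) h),
      (if h : y - p.2 = 0 then 1 else Units.mk0 (y - p.2) h) *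
        (if h : x - p.2 = 0 then 1 else Units.mk0 (x - p.2) h)⁻¹)
  apply Finset.card_le_card_of_injOn g
  · intro p hp
    have hp' := (mem_filter.1 hp).2
    have hx : x - p.2 ≠ 0 := fun h => zero_notMem_cset F H p.1 (h ▸ hp'.1)
    have hy : y - p.2 ≠ 0 := fun h => zero_notMem_cset F H p.1 (h ▸ hp'.2)
    have h1 : p.1⁻¹ * Units.mk0 (x - p.2) hx ∈ H := (unit_mem_cset F H p.1 (Units.mk0 _ hx)).1 hp'.1
    have h2 : p.1⁻¹ * Units.mk0 (y - p.2) hy ∈ H := (unit_mem_cset F H p.1 (Units.mk0 _ hy)).1 hp'.2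
    have hg : g p = (p.1⁻¹ * Units.mk0 (x - p.2) hx, Units.mk0 (y - p.2) hy * (Units.mk0 (x - p.2) hx)⁻¹) := by
      simp only [g, dif_neg hx, dif_neg hy]
    have : g p ∈ (Hset F H) ×ˢ ((Hset F H).erase 1) := by
      rw [hg, mem_product, mem_erase, mem_Hset, mem_Hset]
      refine ⟨h1, ?_, ?_⟩
      · intro h
        have h' : Units.mk0 (y - p.2) hy = Units.mk0 (x - p.2) hx := by
          simpa [mul_inv_eq_one] using h
        have h'' : y - p.2 = x - p.2 := by simpa using congrArg Units.val h'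
        exact hxy (sub_left_injective h''.symm)
      · have e : Units.mk0 (y - p.2) hy * (Units.mk0 (x - p.2) hx)⁻¹ =
          (p.1⁻¹ * Units.mk0 (y - p.2) hy) * (p.1⁻¹ * Units.mk0 (x - p.2) hx)⁻¹ := by
          rw [mul_inv_rev, inv_inv]
          rw [mul_comm (Units.mk0 (x - p.2) hx)⁻¹ p.1]
          rw [mul_comm p.1⁻¹, mul_assoc, ← mul_assoc p.1⁻¹, inv_mul_cancel, one_mul]
        rw [e]
        exact H.mul_mem h2 (H.inv_mem h1)
    exact this
  · intro p hp q hq hpq
    have hp' := (mem_filter.1 hp).2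
    have hq' := (mem_filter.1 hq).2
    have hx : x - p.2 ≠ 0 := fun h => zero_notMem_cset F H p.1 (h ▸ hp'.1)
    have hy : y - p.2 ≠ 0 := fun h => zero_notMem_cset F H p.1 (h ▸ hp'.2)
    have hx' : x - q.2 ≠ 0 := fun h => zero_notMem_cset F H q.1 (h ▸ hq'.1)
    have hy' : y - q.2 ≠ 0 := fun h => zero_notMem_cset F H q.1 (h ▸ hq'.2)
    have hg : g p = (p.1⁻¹ * Units.mk0 (x - p.2) hx, Units.mk0 (y - p.2) hy * (Units.mk0 (x - p.2) hx)⁻¹) := by
      simp only [g, dif_neg hx, dif_neg hy]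
    have hg' : g q = (q.1⁻¹ * Units.mk0 (x - q.2) hx', Units.mk0 (y - q.2) hy' * (Units.mk0 (x - q.2) hx')⁻¹) := by
      simp only [g, dif_neg hx', dif_neg hy']
    rw [hg, hg', Prod.mk.injEq] at hpq
    obtain ⟨e1, e2⟩ := hpq
    have e2' : (y - p.2) * (x - p.2)⁻¹ = (y - q.2) * (x - q.2)⁻¹ := by
      simpa using congrArg Units.val e2
    have e3 : (y - p.2) * (x - q.2) = (y - q.2) * (x - p.2) := by
      field_simp at e2'
      linear_combination e2'
    have e4 : (p.2 - q.2) * (y - x) = 0 := by linear_combination e3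
    have ha : p.2 = q.2 := by
      rcases mul_eq_zero.1 e4 with h | h
      · exact sub_eq_zero.1 h
      · exact absurd (sub_eq_zero.1 h).symm hxy
    have hc : p.1 = q.1 := by
      have e5 : p.1⁻¹ * Units.mk0 (x - p.2) hx = q.1⁻¹ * Units.mk0 (x - p.2) hx := by
        rw [e1]
        congr 1
        apply Units.ext
        simp [ha]
      have := mul_right_cancel e5
      simpa using this
    exact Prod.ext hc ha

theorem card_pairs_self (x : F) :
    ((univ ×ˢ univ : Finset (Fˣ × F)).filter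
      (fun p => x - p.2 ∈ cset F H p.1 ∧ x - p.2 ∈ cset F H p.1)).card =
      (Hset F H).card * (Fintype.card F - 1) := by
  classical
  simp only [and_self]
  rw [card_filter, sum_product_right]
  have h1 : ∀ a : F, (∑ c : Fˣ, if x - a ∈ cset F H c then (1 : ℕ) else 0) =
      if a = x then 0 else (Hset F H).card := by
    intro a
    by_cases hax : a = x
    · subst hax
      rw [if_pos rfl]
      apply sum_eq_zero
      intro c _
      rw [sub_self, if_neg (zero_notMem_cset F H c)]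
    · rw [if_neg hax]
      have hne : x - a ≠ 0 := fun h => hax (sub_eq_zero.1 h).symm
      rw [← card_c F H (Units.mk0 (x - a) hne), card_filter]
      rfl
  rw [sum_congr rfl (fun a _ => h1 a)]
  rw [← sum_filter_add_sum_filter_not univ (fun a : F => a = x)]
  rw [sum_eq_zero (s := univ.filter (fun a : F => a = x))
    (fun a ha => by rw [if_pos (mem_filter.1 ha).2]), zero_add]
  rw [sum_congr rfl (fun a ha => by rw [if_neg (mem_filter.1 ha).2] : ∀ a ∈ univ.filter (fun a : F => ¬ a = x),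
    (if a = x then 0 else (Hset F H).card) = (Hset F H).card)]
  rw [sum_const, smul_eq_mul, mul_comm]
  congr 1
  rw [filter_not, filter_eq', if_pos (mem_univ x), card_sdiff_of_subset (subset_univ _), card_singleton, card_univ]

/-- The counting function. -/
noncomputable def Nf (S : Finset F) (c : Fˣ) (a : F) : ℝ :=
  ((S.filter (fun x => x - a ∈ cset F H c)).card : ℝ)

theorem Nf_eq (S : Finset F) (c : Fˣ) (a : F) :
    Nf F H S c a = ∑ x ∈ S, if x - a ∈ cset F H c then (1 : ℝ) else 0 := by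
  rw [Nf, card_filter]; push_cast; rfl

theorem sum_Nf (S : Finset F) (c : Fˣ) :
    ∑ a, Nf F H S c a = (S.card : ℝ) * (Hset F H).card := by
  simp_rw [Nf_eq]
  rw [sum_comm]
  have h : ∀ x ∈ S, (∑ a : F, if x - a ∈ cset F H c then (1 : ℝ) else 0) = ((Hset F H).card : ℝ) := by
    intro x _
    rw [← card_cset F H c]
    rw [Fintype.sum_equiv (Equiv.subLeft x) (fun a : F => if x - a ∈ cset F H c then (1 : ℝ) else 0)
      (fun b : F => if b ∈ cset F H c then (1 : ℝ) else 0) (fun a => rfl)]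
    rw [← sum_filter, filter_mem_eq_inter, univ_inter, sum_const, nsmul_eq_mul, mul_one]
  rw [sum_congr rfl h, sum_const, nsmul_eq_mul]

theorem sum_Nf_sq (S : Finset F) :
    ∑ c : Fˣ, ∑ a, Nf F H S c a ^ 2 ≤
      (S.card : ℝ) * ((Hset F H).card * (Fintype.card F - 1)) +
      ((S.card : ℝ) ^ 2 - S.card) * ((Hset F H).card * ((Hset F H).card - 1)) := by
  classical
  have hexp : ∀ c a, Nf F H S c a ^ 2 = ∑ x ∈ S, ∑ y ∈ S,
      if x - a ∈ cset F H c ∧ y - a ∈ cset F H c then (1 : ℝ) else 0 := by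
    intro c a
    rw [Nf_eq, sq, sum_mul_sum]
    refine sum_congr rfl fun x _ => sum_congr rfl fun y _ => ?_
    by_cases h1 : x - a ∈ cset F H c <;> by_cases h2 : y - a ∈ cset F H c <;> simp [h1, h2]
  have h1 : ∑ c : Fˣ, ∑ a, Nf F H S c a ^ 2 = ∑ x ∈ S, ∑ y ∈ S,
      (((univ ×ˢ univ : Finset (Fˣ × F)).filter
        (fun p => x - p.2 ∈ cset F H p.1 ∧ y - p.2 ∈ cset F H p.1)).card : ℝ) := by
    simp_rw [hexp]
    rw [← sum_product' (univ : Finset Fˣ) (univ : Finset F)
      (fun c a => ∑ x ∈ S, ∑ y ∈ S, if x - a ∈ cset F H c ∧ y - a ∈ cset F H c then (1 : ℝ) else 0)]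
    rw [sum_comm]
    refine sum_congr rfl fun x _ => ?_
    rw [sum_comm]
    refine sum_congr rfl fun y _ => ?_
    rw [card_filter]
    push_cast
    rfl
  rw [h1]
  have hH1 : 1 ≤ (Hset F H).card := card_pos.2 ⟨1, (mem_Hset F H 1).2 H.one_mem⟩
  have hK1 : 1 ≤ Fintype.card F := Fintype.card_pos
  have h2 : ∀ x ∈ S, (∑ y ∈ S, (((univ ×ˢ univ : Finset (Fˣ × F)).filter
        (fun p => x - p.2 ∈ cset F H p.1 ∧ y - p.2 ∈ cset F H p.1)).card : ℝ)) ≤
      ((Hset F H).card : ℝ) * (Fintype.card F - 1) +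
      ((S.card : ℝ) - 1) * ((Hset F H).card * ((Hset F H).card - 1)) := by
    intro x hx
    rw [← add_sum_erase S _ hx]
    have e1 : (((univ ×ˢ univ : Finset (Fˣ × F)).filter
        (fun p => x - p.2 ∈ cset F H p.1 ∧ x - p.2 ∈ cset F H p.1)).card : ℝ) =
        ((Hset F H).card : ℝ) * (Fintype.card F - 1) := by
      rw [card_pairs_self F H x]
      push_cast [Nat.cast_sub hK1]
      ring
    have e2 : (∑ y ∈ S.erase x, (((univ ×ˢ univ : Finset (Fˣ × F)).filter
        (fun p => x - p.2 ∈ cset F H p.1 ∧ y - p.2 ∈ cset F H p.1)).card : ℝ)) ≤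
        ∑ y ∈ S.erase x, ((Hset F H).card : ℝ) * ((Hset F H).card - 1) := by
      apply sum_le_sum
      intro y hy
      have hxy : x ≠ y := fun h => (mem_erase.1 hy).1 h.symm
      have := card_pairs_le F H hxy
      have h' : ((((univ ×ˢ univ : Finset (Fˣ × F)).filter
        (fun p => x - p.2 ∈ cset F H p.1 ∧ y - p.2 ∈ cset F H p.1)).card : ℕ) : ℝ) ≤
        (((Hset F H).card * ((Hset F H).card - 1) : ℕ) : ℝ) := by exact_mod_cast this
      rw [Nat.cast_mul, Nat.cast_sub hH1, Nat.cast_one] at h'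
      exact h'
    rw [sum_const, nsmul_eq_mul, card_erase_of_mem hx,
      Nat.cast_sub (card_pos.2 ⟨x, hx⟩), Nat.cast_one] at e2
    linarith
  calc _ ≤ ∑ x ∈ S, (((Hset F H).card : ℝ) * (Fintype.card F - 1) +
      ((S.card : ℝ) - 1) * ((Hset F H).card * ((Hset F H).card - 1))) := sum_le_sum h2
    _ = _ := by rw [sum_const, nsmul_eq_mul]; ring

end CYC1

/-! ### CYC1 : second moment for cosets of a multiplicative subgroup -/
theorem coset_second_moment (F : Type) [Field F] [Fintype F] [DecidableEq F] (H : Subgroup Fˣ)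
    (c : Fˣ) (C : Finset F) (hC : ∀ x : F, x ∈ C ↔ ∃ h ∈ H, x = (c : F) * (h : Fˣ))
    (S : Finset F) :
    ∑ a : F, (((S.filter (fun x => x - a ∈ C)).card : ℝ) -
      (S.card : ℝ) * C.card / Fintype.card F) ^ 2 ≤ (Fintype.card F : ℝ) * S.card := by
  classical
  have hCc : C = cset F H c := by
    ext x; rw [hC, mem_cset]
  subst hCc
  rw [card_cset]
  set η : ℝ := ((Hset F H).card : ℝ) with hη
  set K : ℝ := (Fintype.card F : ℝ) with hK
  set σ : ℝ := (S.card : ℝ) with hσ
  have hKpos : 0 < K := by rw [hK]; exact_mod_cast Fintype.card_pos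
  have hH1 : 1 ≤ η := by
    rw [hη]; exact_mod_cast card_pos.2 ⟨1, (mem_Hset F H 1).2 H.one_mem⟩
  have hηK : η ≤ K := by
    rw [hη, hK, ← card_cset F H c]
    exact_mod_cast card_le_univ _
  have hσ0 : 0 ≤ σ := by rw [hσ]; positivity
  -- the variance for each unit
  let V : Fˣ → ℝ := fun c => ∑ a : F, (Nf F H S c a - σ * η / K) ^ 2
  have hV : ∀ c, V c = ∑ a, Nf F H S c a ^ 2 - σ ^ 2 * η ^ 2 / K := by
    intro c
    have : ∀ a, (Nf F H S c a - σ * η / K) ^ 2 =
        Nf F H S c a ^ 2 - 2 * (σ * η / K) * Nf F H S c a + (σ * η / K) ^ 2 := by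
      intro a; ring
    simp only [V, this]
    rw [sum_add_distrib, sum_sub_distrib, ← mul_sum, sum_Nf, sum_const, nsmul_eq_mul, card_univ]
    rw [← hη, ← hK, ← hσ]
    field_simp
    ring
  have hV0 : ∀ c, 0 ≤ V c := fun c => sum_nonneg fun a _ => sq_nonneg _
  have hVmul : ∀ h ∈ H, V (c * h) = V c := by
    intro h hh
    simp only [V, Nf, cset_mul F H c h hh]
  have hsum : η * V c ≤ ∑ c' : Fˣ, V c' := by
    have h1 : η * V c = ∑ h ∈ Hset F H, V (c * h) := by
      rw [sum_congr rfl (fun h hh => hVmul h ((mem_Hset F H h).1 hh)), sum_const, nsmul_eq_mul]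
    rw [h1]
    have h2 : ∑ h ∈ Hset F H, V (c * h) = ∑ u ∈ (Hset F H).image (fun h => c * h), V u := by
      rw [sum_image]
      intro a _ b _ hab
      exact mul_left_cancel hab
    rw [h2]
    exact sum_le_sum_of_subset_of_nonneg (subset_univ _) (fun u _ _ => hV0 u)
  have hcardU : (Fintype.card Fˣ : ℝ) = K - 1 := by
    rw [Fintype.card_units, Nat.cast_sub Fintype.card_pos, Nat.cast_one]
  have htot : ∑ c' : Fˣ, V c' ≤ σ * (η * (K - 1)) + (σ ^ 2 - σ) * (η * (η - 1)) -
      (K - 1) * (σ ^ 2 * η ^ 2 / K) := by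
    simp_rw [hV]
    rw [sum_sub_distrib, sum_const, nsmul_eq_mul, card_univ, hcardU]
    have := sum_Nf_sq F H S
    linarith
  have hfin : η * V c ≤ η * (K * σ) := by
    refine hsum.trans (htot.trans ?_)
    have h1 : (K - 1) * (σ ^ 2 * η ^ 2 / K) = σ ^ 2 * η ^ 2 - σ ^ 2 * η ^ 2 / K := by
      field_simp
    rw [h1]
    have h2 : σ ^ 2 * η ^ 2 / K ≤ σ ^ 2 * η := by
      rw [div_le_iff₀ hKpos]
      have : σ ^ 2 * η * η ≤ σ ^ 2 * η * K := mul_le_mul_of_nonneg_left hηK (by positivity)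
      nlinarith [this]
    nlinarith [mul_nonneg hσ0 (by linarith : (0 : ℝ) ≤ η), mul_nonneg (mul_nonneg hσ0 (by linarith : (0 : ℝ) ≤ η)) (by linarith : (0 : ℝ) ≤ η)]
  exact le_of_mul_le_mul_left hfin (by linarith)

end Pool.Agent.WG
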