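import Pool.Agent.WG.CYC1

set_option autoImplicit false

/-! # CYC2: greedy selection of elements with prescribed cosets of the differences -/

namespace Pool.Agent.WG

/-- the number of elements of a coset -/
private theorem cyc2_card (F : Type) [Field F] [Fintype F] (H : Subgroup Fˣ) (c : Fˣ)
    (C : Finset F) (hC : ∀ x : F, x ∈ C ↔ ∃ h ∈ H, x = (c : F) * (h : Fˣ)) :
    C.card * H.index = Fintype.card F - 1 := by
  classical
  have h1 : C.card = Nat.card H := by
    have h2 : C = (Finset.univ : Finset H).image (fun h : H => (c : F) * ((h : Fˣ) : F)) := by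
      ext x
      rw [hC, Finset.mem_image]
      constructor
      · rintro ⟨h, hh, rfl⟩
        exact ⟨⟨h, hh⟩, Finset.mem_univ _, rfl⟩
      · rintro ⟨h, -, rfl⟩
        exact ⟨h, h.2, rfl⟩
    rw [h2, Finset.card_image_of_injective, Finset.card_univ, Nat.card_eq_fintype_card]
    intro x y hxy
    apply Subtype.ext
    apply Units.ext
    exact mul_left_cancel₀ (Units.ne_zero c) hxy
  rw [h1, Subgroup.card_mul_index, Nat.card_eq_fintype_card, Fintype.card_units]

/-- few translates of a coset are badly distributed in `S` -/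
private theorem cyc2_bad (F : Type) [Field F] [Fintype F] [DecidableEq F] (H : Subgroup Fˣ)
    (e : ℕ) (he : H.index = e) (he0 : e ≠ 0) (hK : 4 ≤ Fintype.card F) (c : Fˣ)
    (C : Finset F) (hC : ∀ x : F, x ∈ C ↔ ∃ h ∈ H, x = (c : F) * (h : Fˣ)) (S B : Finset F)
    (hB : ∀ a ∈ B, 2 * e * (S.filter (fun x => x - a ∈ C)).card < S.card) :
    B.card * S.card ≤ 16 * e ^ 2 * Fintype.card F := by
  rcases Nat.eq_zero_or_pos S.card with h0 | hS
  · rw [h0, mul_zero]
    exact Nat.zero_le _
  have hmom := coset_second_moment F H c C hC S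
  have hcard := cyc2_card F H c C hC
  rw [he] at hcard
  set K : ℕ := Fintype.card F with hKdef
  have hKpos : (0 : ℝ) < K := by exact_mod_cast (by omega : 0 < K)
  have hK4 : (4 : ℝ) ≤ K := by exact_mod_cast hK
  have hepos : (0 : ℝ) < e := by exact_mod_cast Nat.pos_of_ne_zero he0
  have hSpos : (0 : ℝ) < S.card := by exact_mod_cast hS
  have hcardR : (C.card : ℝ) * e = K - 1 := by
    have h1 : ((C.card * e : ℕ) : ℝ) = ((K - 1 : ℕ) : ℝ) := by rw [hcard]
    rw [Nat.cast_sub (by omega)] at h1
    push_cast at h1
    exact h1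
  have hterm : ∀ a ∈ B, ((S.card : ℝ) / (4 * e)) ^ 2 ≤
      (((S.filter (fun x => x - a ∈ C)).card : ℝ) - (S.card : ℝ) * C.card / K) ^ 2 := by
    intro a ha
    have h1 : 2 * (e : ℝ) * ((S.filter (fun x => x - a ∈ C)).card : ℝ) < S.card := by
      exact_mod_cast hB a ha
    have h2 : ((S.filter (fun x => x - a ∈ C)).card : ℝ) < S.card / (2 * e) := by
      rw [lt_div_iff₀ (by positivity)]
      linarith
    have h3 : (S.card : ℝ) / (2 * e) + S.card / (4 * e) ≤ (S.card : ℝ) * C.card / K := by
      have h4 : (C.card : ℝ) = (K - 1) / e := by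
        rw [eq_div_iff hepos.ne']
        exact hcardR
      rw [h4]
      have h5 : (S.card : ℝ) * ((K - 1) / e) / K - ((S.card : ℝ) / (2 * e) + S.card / (4 * e)) =
          S.card / (4 * e * K) * (K - 4) := by
        field_simp
        ring
      have h6 : 0 ≤ (S.card : ℝ) / (4 * e * K) * (K - 4) :=
        mul_nonneg (by positivity) (by linarith)
      linarith
    have h7 : 0 ≤ (S.card : ℝ) / (4 * e) := by positivity
    nlinarith
  have h1 : (B.card : ℝ) * ((S.card : ℝ) / (4 * e)) ^ 2 ≤ K * S.card := by
    calc (B.card : ℝ) * ((S.card : ℝ) / (4 * e)) ^ 2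
        = ∑ _a ∈ B, ((S.card : ℝ) / (4 * e)) ^ 2 := by
          rw [Finset.sum_const, nsmul_eq_mul]
      _ ≤ ∑ a ∈ B, (((S.filter (fun x => x - a ∈ C)).card : ℝ) -
            (S.card : ℝ) * C.card / K) ^ 2 := Finset.sum_le_sum hterm
      _ ≤ ∑ a : F, (((S.filter (fun x => x - a ∈ C)).card : ℝ) -
            (S.card : ℝ) * C.card / K) ^ 2 :=
          Finset.sum_le_sum_of_subset_of_nonneg (Finset.subset_univ _) fun _ _ _ => sq_nonneg _
      _ ≤ K * S.card := hmom
  have h2 : (B.card : ℝ) * S.card ≤ 16 * e ^ 2 * K := by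
    rw [div_pow, ← mul_div_assoc, div_le_iff₀ (by positivity)] at h1
    have h3 : (S.card : ℝ) * (B.card * S.card) ≤ S.card * (16 * e ^ 2 * K) := by
      nlinarith
    exact le_of_mul_le_mul_left h3 hSpos
  exact_mod_cast h2

theorem coset_select (F : Type) [Field F] [Fintype F] (H : Subgroup Fˣ) (e k : ℕ)
    (he : H.index = e) (he0 : e ≠ 0)
    (hbig : 16 * k * e ^ 2 * (2 * e) ^ (2 * k) < Fintype.card F)
    (c : ℕ → ℕ → Fˣ) :
    ∃ a : ℕ → F, ∀ i j, i < j → j < k → ∃ h ∈ H, a j - a i = (c i j : F) * (h : Fˣ) := by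
  classical
  rcases Nat.eq_zero_or_pos k with rfl | hk
  · exact ⟨fun _ => 0, fun i j _ hj => absurd hj (Nat.not_lt_zero _)⟩
  set K : ℕ := Fintype.card F with hKdef
  have he1 : 1 ≤ e := Nat.one_le_iff_ne_zero.2 he0
  have hK4 : 4 ≤ K := by
    have h1 : 1 ≤ k * e ^ 2 * (2 * e) ^ (2 * k) := by
      have h2 : 1 ≤ e ^ 2 := Nat.one_le_pow _ _ he1
      have h3 : 1 ≤ (2 * e) ^ (2 * k) := Nat.one_le_pow _ _ (by omega)
      calc 1 = 1 * 1 * 1 := rfl
        _ ≤ k * e ^ 2 * (2 * e) ^ (2 * k) := Nat.mul_le_mul (Nat.mul_le_mul hk h2) h3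
    have h4 : 16 * k * e ^ 2 * (2 * e) ^ (2 * k) = 16 * (k * e ^ 2 * (2 * e) ^ (2 * k)) := by ring
    omega
  -- the cosets
  let C : ℕ → ℕ → Finset F := fun l j =>
    Finset.univ.filter (fun x => ∃ h ∈ H, x = (c l j : F) * (h : Fˣ))
  have hC : ∀ l j (x : F), x ∈ C l j ↔ ∃ h ∈ H, x = (c l j : F) * (h : Fˣ) := by
    intro l j x
    simp [C]
  -- the sets of candidates
  let S : (ℕ → F) → ℕ → ℕ → Finset F := fun a i j =>
    Finset.univ.filter (fun x => ∀ l < i, x - a l ∈ C l j)
  have hS : ∀ a i j x, x ∈ S a i j ↔ ∀ l < i, x - a l ∈ C l j := by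
    intro a i j x
    simp [S]
  have key : ∀ i, i ≤ k → ∃ a : ℕ → F, (∀ l j, l < j → j < i → a j - a l ∈ C l j) ∧
      ∀ j, i ≤ j → j < k → K ≤ (S a i j).card * (2 * e) ^ i := by
    intro i
    induction i with
    | zero =>
      intro _
      refine ⟨fun _ => 0, fun l j _ hj => absurd hj (Nat.not_lt_zero _), fun j _ _ => ?_⟩
      rw [pow_zero, mul_one]
      have : S (fun _ => 0) 0 j = Finset.univ := by
        ext x
        rw [hS]
        exact ⟨fun _ => Finset.mem_univ _, fun _ l hl => absurd hl (Nat.not_lt_zero _)⟩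
      rw [this, Finset.card_univ]
    | succ i ih =>
      intro hi
      obtain ⟨a, ha1, ha2⟩ := ih (by omega)
      -- bad elements
      let B : ℕ → Finset F := fun j => Finset.univ.filter
        (fun y => 2 * e * ((S a i j).filter (fun x => x - y ∈ C i j)).card < (S a i j).card)
      have hBcard : ∀ j, i ≤ j → j < k → (B j).card ≤ 16 * e ^ 2 * (2 * e) ^ i := by
        intro j hj hjk
        have h1 := cyc2_bad F H e he he0 hK4 (c i j) (C i j) (hC i j) (S a i j) (B j)
          (fun y hy => (Finset.mem_filter.1 hy).2)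
        have h2 := ha2 j hj hjk
        have h3 : (B j).card * (S a i j).card ≤ 16 * e ^ 2 * (2 * e) ^ i * (S a i j).card := by
          calc (B j).card * (S a i j).card ≤ 16 * e ^ 2 * K := h1
            _ ≤ 16 * e ^ 2 * ((S a i j).card * (2 * e) ^ i) := Nat.mul_le_mul_left _ h2
            _ = 16 * e ^ 2 * (2 * e) ^ i * (S a i j).card := by ring
        have h4 : 0 < (S a i j).card := by
          rcases Nat.eq_zero_or_pos (S a i j).card with h0 | h0
          · rw [h0, zero_mul] at h2
            omega
          · exact h0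
        exact Nat.le_of_mul_le_mul_right h3 h4
      have hex : ∃ y ∈ S a i i, ∀ j, i < j → j < k → y ∉ B j := by
        by_contra hno
        push Not at hno
        have h1 : S a i i ⊆ (Finset.range k).biUnion
            (fun j => if i < j then B j else ∅) := by
          intro y hy
          obtain ⟨j, hj1, hj2, hj3⟩ := hno y hy
          rw [Finset.mem_biUnion]
          refine ⟨j, Finset.mem_range.2 hj2, ?_⟩
          rw [if_pos hj1]
          exact hj3
        have h2 : (S a i i).card ≤ k * (16 * e ^ 2 * (2 * e) ^ i) := by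
          calc (S a i i).card ≤ _ := Finset.card_le_card h1
            _ ≤ ∑ j ∈ Finset.range k, (if i < j then B j else ∅).card := Finset.card_biUnion_le
            _ ≤ ∑ _j ∈ Finset.range k, 16 * e ^ 2 * (2 * e) ^ i := by
                refine Finset.sum_le_sum fun j hj => ?_
                split_ifs with h
                · exact hBcard j h.le (Finset.mem_range.1 hj)
                · rw [Finset.card_empty]; exact Nat.zero_le _
            _ = k * (16 * e ^ 2 * (2 * e) ^ i) := by
                rw [Finset.sum_const, Finset.card_range, smul_eq_mul]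
        have h3 := ha2 i le_rfl (by omega)
        have h4 : K ≤ 16 * k * e ^ 2 * (2 * e) ^ (2 * k) := by
          calc K ≤ (S a i i).card * (2 * e) ^ i := h3
            _ ≤ k * (16 * e ^ 2 * (2 * e) ^ i) * (2 * e) ^ i := Nat.mul_le_mul_right _ h2
            _ = 16 * k * e ^ 2 * (2 * e) ^ (i + i) := by rw [pow_add]; ring
            _ ≤ 16 * k * e ^ 2 * (2 * e) ^ (2 * k) := by
                apply Nat.mul_le_mul_left
                exact Nat.pow_le_pow_right (by omega) (by omega)
        omega
      obtain ⟨y, hy, hyB⟩ := hex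
      refine ⟨Function.update a i y, ?_, ?_⟩
      · intro l j hlj hj
        have hl : l ≠ i := by omega
        rw [Function.update_of_ne hl]
        rcases Nat.lt_succ_iff_lt_or_eq.1 hj with hji | rfl
        · rw [Function.update_of_ne (by omega)]
          exact ha1 l j hlj hji
        · rw [Function.update_self]
          exact (hS a j j y).1 hy l hlj
      · intro j hj hjk
        have h1 : S (Function.update a i y) (i + 1) j =
            (S a i j).filter (fun x => x - y ∈ C i j) := by
          ext x
          rw [hS, Finset.mem_filter, hS]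
          constructor
          · intro h
            refine ⟨fun l hl => ?_, ?_⟩
            · have := h l (by omega)
              rwa [Function.update_of_ne (by omega)] at this
            · have := h i (Nat.lt_succ_self i)
              rwa [Function.update_self] at this
          · rintro ⟨h2, h3⟩ l hl
            rcases Nat.lt_succ_iff_lt_or_eq.1 hl with hli | rfl
            · rw [Function.update_of_ne (by omega)]
              exact h2 l hli
            · rw [Function.update_self]
              exact h3
        rw [h1]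
        have h2 : (S a i j).card ≤ 2 * e * ((S a i j).filter (fun x => x - y ∈ C i j)).card := by
          by_contra hlt
          push Not at hlt
          exact hyB j (by omega) hjk (Finset.mem_filter.2 ⟨Finset.mem_univ _, hlt⟩)
        calc K ≤ (S a i j).card * (2 * e) ^ i := ha2 j (by omega) hjk
          _ ≤ 2 * e * ((S a i j).filter (fun x => x - y ∈ C i j)).card * (2 * e) ^ i :=
              Nat.mul_le_mul_right _ h2
          _ = ((S a i j).filter (fun x => x - y ∈ C i j)).card * (2 * e) ^ (i + 1) := by
              rw [pow_succ]; ring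
  obtain ⟨a, ha, -⟩ := key k le_rfl
  exact ⟨a, fun i j hij hj => (hC i j _).1 (ha i j hij hj)⟩

end Pool.Agent.WG
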