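import Pool.Agent.WB.Basic
import Mathlib.GroupTheory.SpecificGroups.Cyclic
import Mathlib.FieldTheory.Finite.Basic

set_option autoImplicit false

/-! Module CYC3 (part a): the cyclotomic design, from the statement of the selection lemma CYC2. -/

namespace Pool.Agent.WG

open Pool.Agent.WB

/-- The statement of CYC2 (for the field `F`). -/
def CosetSelect (F : Type) [Field F] [Fintype F] : Prop :=
  ∀ (H : Subgroup Fˣ) (e k : ℕ) (_ : H.index = e) (_ : e ≠ 0)
    (_ : 16 * k * e ^ 2 * (2 * e) ^ (2 * k) < Fintype.card F)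
    (c : ℕ → ℕ → Fˣ),
    ∃ a : ℕ → F, ∀ i j, i < j → j < k → ∃ h ∈ H, a j - a i = (c i j : F) * (h : Fˣ)

theorem cyc_neg_mem (F : Type) [Field F] [Fintype F] (e : ℕ) (_he0 : e ≠ 0)
    (hdvd : 2 * e ∣ Fintype.card F - 1) : (-1 : Fˣ) ∈ (powMonoidHom e : Fˣ →* Fˣ).range := by
  classical
  obtain ⟨m, hm⟩ := hdvd
  obtain ⟨g, hg⟩ := IsCyclic.exists_generator (α := Fˣ)
  have hcard : Nat.card Fˣ = 2 * e * m := by
    rw [Nat.card_eq_fintype_card, Fintype.card_units, hm]
  have hord : orderOf g = 2 * e * m := by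
    rw [orderOf_eq_card_of_forall_mem_zpowers hg, hcard]
  have hK : 1 < Fintype.card F := Fintype.one_lt_card
  have hpos : 0 < 2 * e * m := by omega
  refine ⟨g ^ m, ?_⟩
  rw [powMonoidHom_apply, ← pow_mul]
  have hsq : (g ^ (m * e)) * (g ^ (m * e)) = 1 := by
    rw [← pow_add]
    have : m * e + m * e = orderOf g := by rw [hord]; ring
    rw [this, pow_orderOf_eq_one]
  have hne : g ^ (m * e) ≠ 1 := by
    intro h
    have := orderOf_dvd_of_pow_eq_one h
    rw [hord] at this
    have h1 : 0 < m * e := by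
      rcases Nat.eq_zero_or_pos (m * e) with h0 | h0
      · exfalso
        have : 2 * e * m = 0 := by
          calc 2 * e * m = 2 * (m * e) := by ring
            _ = 0 := by rw [h0]
        omega
      · exact h0
    have h2 := Nat.le_of_dvd h1 this
    have h3 : 2 * e * m = 2 * (m * e) := by ring
    omega
  have hsq' : ((g ^ (m * e) : Fˣ) : F) * ((g ^ (m * e) : Fˣ) : F) = 1 := by
    rw [← Units.val_mul, hsq, Units.val_one]
  rcases mul_self_eq_one_iff.1 hsq' with h | h
  · exact absurd (Units.ext h) hne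
  · exact Units.ext h

theorem cyc_index (F : Type) [Field F] [Fintype F] (e : ℕ)
    (hdvd : 2 * e ∣ Fintype.card F - 1) : (powMonoidHom e : Fˣ →* Fˣ).range.index = e := by
  classical
  rw [IsCyclic.index_powMonoidHom_range, Nat.gcd_eq_right_iff_dvd, Nat.card_eq_fintype_card,
    Fintype.card_units]
  exact (Dvd.intro_left 2 rfl).trans hdvd

/-- A choice of coset representatives indexed by pairs. -/
theorem cyc_reps (G : Type) [Group G] [Finite G] (H : Subgroup G) (k : ℕ)
    (hH : H.index = k * (k - 1) / 2) :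
    ∃ c : ℕ → ℕ → G, (∀ g : G, ∃ i j, i < j ∧ j < k ∧ (c i j)⁻¹ * g ∈ H) ∧
      ∀ i j i' j', i < j → j < k → i' < j' → j' < k → (c i j)⁻¹ * c i' j' ∈ H →
        i = i' ∧ j = j' := by
  classical
  let T : Type := Σ j : Fin k, Fin (j : ℕ)
  have hT : Nat.card T = Nat.card (G ⧸ H) := by
    have h1 : Nat.card (G ⧸ H) = H.index := rfl
    rw [h1, hH, Nat.card_eq_fintype_card]
    show Fintype.card (Σ j : Fin k, Fin (j : ℕ)) = _
    rw [Fintype.card_sigma]
    simp only [Fintype.card_fin]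
    rw [Fin.sum_univ_eq_sum_range (fun j => j) k, Finset.sum_range_id]
  let θ : T ≃ G ⧸ H := ((Finite.equivFin T).trans (finCongr hT)).trans (Finite.equivFin _).symm
  let c : ℕ → ℕ → G := fun i j => if h : i < j ∧ j < k then (θ ⟨⟨j, h.2⟩, ⟨i, h.1⟩⟩).out else 1
  have hc : ∀ i j (h1 : i < j) (h2 : j < k),
      (QuotientGroup.mk (c i j) : G ⧸ H) = θ ⟨⟨j, h2⟩, ⟨i, h1⟩⟩ := by
    intro i j h1 h2
    have : c i j = (θ ⟨⟨j, h2⟩, ⟨i, h1⟩⟩).out := by
      simp only [c]
      rw [dif_pos ⟨h1, h2⟩]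
    rw [this]
    exact Quotient.out_eq' _
  refine ⟨c, ?_, ?_⟩
  · intro g
    obtain ⟨⟨⟨j, hj⟩, ⟨i, hi⟩⟩, hij⟩ := θ.surjective (QuotientGroup.mk g)
    simp only at hi
    refine ⟨i, j, hi, hj, ?_⟩
    rw [← QuotientGroup.eq, hc i j hi hj, hij]
  · intro i j i' j' h1 h2 h1' h2' h
    rw [← QuotientGroup.eq, hc i j h1 h2, hc i' j' h1' h2'] at h
    have h3 := θ.injective h
    rw [Sigma.mk.injEq] at h3
    obtain ⟨h4, h5⟩ := h3
    have h6 : j = j' := by simpa using h4
    subst h6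
    refine ⟨?_, rfl⟩
    have h7 := eq_of_heq h5
    simpa using h7

/-- The design from a difference system of representatives. -/
theorem cyc_blocks (F : Type) [Field F] [Fintype F] (k : ℕ)
    (H : Subgroup Fˣ) (hneg : (-1 : Fˣ) ∈ H) (h2 : (1 : F) ≠ -1) (a : ℕ → F)
    (hex : ∀ u : Fˣ, ∃ i j, i < j ∧ j < k ∧ ∃ h ∈ H, (u : F) = (h : Fˣ) * (a j - a i))
    (huq : ∀ i j i' j', i < j → j < k → i' < j' → j' < k → ∀ h ∈ H,
        a j - a i = (h : Fˣ) * (a j' - a i') → i = i' ∧ j = j')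
    (hne : ∀ i j, i < j → j < k → a j - a i ≠ 0) :
    PB {k} (Fintype.card F) := by
  classical
  have hne' : ∀ i j, i < k → j < k → a i = a j → i = j := by
    intro i j hi hj hij
    rcases Nat.lt_trichotomy i j with h | h | h
    · exact absurd (by rw [hij, sub_self]) (hne i j h hj)
    · exact h
    · exact absurd (by rw [hij, sub_self]) (hne j i h hi)
  -- half system
  let ε : F ≃ Fin (Fintype.card F) := Fintype.equivFin F
  let P : Fˣ → Prop := fun h => h ∈ H ∧ ε (h : F) < ε (-(h : F))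
  have hP1 : ∀ h ∈ H, P h ∨ P (-h) := by
    intro h hh
    have hnh : -h ∈ H := by
      have := H.mul_mem hneg hh
      simpa using this
    have hneq : ε (h : F) ≠ ε (-(h : F)) := by
      intro h1
      have h3 := ε.injective h1
      apply h2
      have h4 : (h : F) ≠ 0 := h.ne_zero
      have h5 : (h : F) * 1 = (h : F) * (-1) := by rw [mul_one, mul_neg, mul_one]; exact h3
      exact mul_left_cancel₀ h4 h5
    rcases lt_or_gt_of_ne hneq with h3 | h3
    · exact Or.inl ⟨hh, h3⟩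
    · refine Or.inr ⟨hnh, ?_⟩
      simpa using h3
  have hP2 : ∀ h, P h → ¬ P (-h) := by
    rintro h ⟨h3, h4⟩ ⟨h5, h6⟩
    simp only [Units.val_neg, neg_neg] at h6
    exact absurd h4 (not_lt.2 h6.le)
  let blk : Fˣ → F → Finset F := fun h τ => (Finset.range k).image (fun i => (h : F) * a i + τ)
  have hblk : ∀ (h : Fˣ) (τ x : F), x ∈ blk h τ ↔ ∃ i < k, (h : F) * a i + τ = x := by
    intro h τ x
    simp only [blk, Finset.mem_image, Finset.mem_range]
  refine PB.of (V := F) (Nat.card_eq_fintype_card) ?_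
  refine ⟨{B | ∃ h τ, P h ∧ B = blk h τ}, ?_, ?_⟩
  · rintro B ⟨h, τ, hP, rfl⟩
    refine ⟨?_, ?_⟩
    · show (blk h τ).card = k
      rw [Finset.card_image_of_injOn, Finset.card_range]
      intro i hi j hj hij
      simp only [Finset.coe_range, Set.mem_Iio] at hi hj
      apply hne' i j hi hj
      have h4 : (h : F) ≠ 0 := h.ne_zero
      exact mul_left_cancel₀ h4 (add_right_cancel hij)
    · intro x _ y _ hxy
      exact hxy
  · intro x y hxy
    have hxy' : x ≠ y := hxy
    have hsub : x - y ≠ 0 := sub_ne_zero.2 hxy'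
    obtain ⟨i, j, hij, hjk, h, hh, heq⟩ := hex (Units.mk0 (x - y) hsub)
    rw [Units.val_mk0] at heq
    -- key: every block through x and y
    have key : ∀ (h' : Fˣ) (τ' : F), h' ∈ H → x ∈ blk h' τ' → y ∈ blk h' τ' →
        (x = (h' : F) * a j + τ' ∧ y = (h' : F) * a i + τ') ∨
        (x = (h' : F) * a i + τ' ∧ y = (h' : F) * a j + τ') := by
      intro h' τ' hh' hx hy
      obtain ⟨s, hs, hs'⟩ := (hblk _ _ _).1 hx
      obtain ⟨t, ht, ht'⟩ := (hblk _ _ _).1 hy
      have h1 : x - y = (h' : F) * (a s - a t) := by rw [← hs', ← ht']; ring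
      have h'0 : (h' : F) ≠ 0 := h'.ne_zero
      rcases Nat.lt_trichotomy s t with hst | hst | hst
      · -- s < t
        have h3 : a t - a s = ((-(h'⁻¹ * h) : Fˣ) : F) * (a j - a i) := by
          have h4 : (h' : F) * (a t - a s) = (h' : F) * (((-(h'⁻¹ * h) : Fˣ) : F) * (a j - a i)) := by
            rw [Units.val_neg, Units.val_mul, Units.val_inv_eq_inv_val]
            have h5 : (h' : F) * (-((h' : F)⁻¹ * (h : F)) * (a j - a i))
                = -(((h' : F) * (h' : F)⁻¹) * ((h : F) * (a j - a i))) := by ring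
            rw [h5, mul_inv_cancel₀ h'0, one_mul, ← heq, h1]
            ring
          exact mul_left_cancel₀ h'0 h4
        have hmem : (-(h'⁻¹ * h) : Fˣ) ∈ H := by
          have := H.mul_mem hneg (H.mul_mem (H.inv_mem hh') hh)
          simpa using this
        obtain ⟨h6, h7⟩ := huq s t i j hst ht hij hjk _ hmem h3
        subst h6 h7
        exact Or.inr ⟨hs'.symm, ht'.symm⟩
      · exfalso
        rw [hst, sub_self, mul_zero] at h1
        exact hsub h1
      · have h3 : a s - a t = ((h'⁻¹ * h : Fˣ) : F) * (a j - a i) := by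
          have h4 : (h' : F) * (a s - a t) = (h' : F) * (((h'⁻¹ * h : Fˣ) : F) * (a j - a i)) := by
            rw [Units.val_mul, Units.val_inv_eq_inv_val]
            have h5 : (h' : F) * (((h' : F)⁻¹ * (h : F)) * (a j - a i))
                = ((h' : F) * (h' : F)⁻¹) * ((h : F) * (a j - a i)) := by ring
            rw [h5, mul_inv_cancel₀ h'0, one_mul, ← heq, h1]
          exact mul_left_cancel₀ h'0 h4
        have hmem : (h'⁻¹ * h : Fˣ) ∈ H := H.mul_mem (H.inv_mem hh') hh
        obtain ⟨h6, h7⟩ := huq t s i j hst hs hij hjk _ hmem h3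
        subst h6 h7
        exact Or.inl ⟨hs'.symm, ht'.symm⟩
    have hik : i < k := lt_trans hij hjk
    have hd : a j - a i ≠ 0 := hne i j hij hjk
    -- existence
    have hexist : ∃ h₀ τ₀, P h₀ ∧ x ∈ blk h₀ τ₀ ∧ y ∈ blk h₀ τ₀ := by
      rcases hP1 h hh with hp | hp
      · refine ⟨h, x - (h : F) * a j, hp, ?_, ?_⟩
        · rw [hblk]; exact ⟨j, hjk, by ring⟩
        · rw [hblk]; refine ⟨i, hik, ?_⟩
          have : y = x - (h : F) * (a j - a i) := by rw [← heq]; ring
          rw [this]; ring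
      · refine ⟨-h, y - ((-h : Fˣ) : F) * a j, hp, ?_, ?_⟩
        · rw [hblk]; refine ⟨i, hik, ?_⟩
          have : x = y + (h : F) * (a j - a i) := by rw [← heq]; ring
          rw [this, Units.val_neg]; ring
        · rw [hblk]; exact ⟨j, hjk, by ring⟩
    obtain ⟨h₀, τ₀, hp₀, hx₀, hy₀⟩ := hexist
    refine ⟨blk h₀ τ₀, ⟨⟨h₀, τ₀, hp₀, rfl⟩, hx₀, hy₀⟩, ?_⟩
    rintro B ⟨⟨h₁, τ₁, hp₁, rfl⟩, hx₁, hy₁⟩
    have e0 := key h₀ τ₀ hp₀.1 hx₀ hy₀
    have e1 := key h₁ τ₁ hp₁.1 hx₁ hy₁
    have same : (h₁ : F) = (h₀ : F) → τ₁ = τ₀ → blk h₁ τ₁ = blk h₀ τ₀ := by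
      intro h3 h4
      rw [Units.ext h3, h4]
    have opp : (h₁ : F) * (a j - a i) = -((h₀ : F) * (a j - a i)) → False := by
      intro h3
      have h4 : (h₁ : F) = ((-h₀ : Fˣ) : F) := by
        rw [Units.val_neg]
        apply mul_right_cancel₀ hd
        rw [h3]; ring
      have h5 := Units.ext h4
      rw [h5] at hp₁
      exact hP2 h₀ hp₀ hp₁
    rcases e0 with ⟨a1, a2⟩ | ⟨a1, a2⟩ <;> rcases e1 with ⟨b1, b2⟩ | ⟨b1, b2⟩
    · have h3 : (h₁ : F) = (h₀ : F) := by
        apply mul_right_cancel₀ hd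
        have : (h₁ : F) * (a j - a i) = x - y := by rw [b1, b2]; ring
        rw [this, a1, a2]; ring
      refine same h3 ?_
      have h4 := b1
      rw [a1, h3] at h4
      exact (add_left_cancel h4).symm
    · exfalso
      apply opp
      have h3 : (h₁ : F) * (a j - a i) = y - x := by rw [b1, b2]; ring
      have h4 : (h₀ : F) * (a j - a i) = x - y := by rw [a1, a2]; ring
      rw [h3, h4]; ring
    · exfalso
      apply opp
      have h3 : (h₁ : F) * (a j - a i) = x - y := by rw [b1, b2]; ring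
      have h4 : (h₀ : F) * (a j - a i) = y - x := by rw [a1, a2]; ring
      rw [h3, h4]; ring
    · have h3 : (h₁ : F) = (h₀ : F) := by
        apply mul_right_cancel₀ hd
        have : (h₁ : F) * (a j - a i) = y - x := by rw [b1, b2]; ring
        rw [this, a1, a2]; ring
      refine same h3 ?_
      have h4 := b1
      rw [a1, h3] at h4
      exact (add_left_cancel h4).symm

theorem cyc_design_of (F : Type) [Field F] [Fintype F] (hsel : CosetSelect F) (k : ℕ) (hk : 2 ≤ k)
    (hdvd : k * (k - 1) ∣ Fintype.card F - 1)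
    (hbig : 16 * k * (k * (k - 1) / 2) ^ 2 * (k * (k - 1)) ^ (2 * k) < Fintype.card F) :
    PB {k} (Fintype.card F) := by
  classical
  have heven : 2 ∣ k * (k - 1) := by
    obtain ⟨m, rfl⟩ : ∃ m, k = m + 1 := ⟨k - 1, by omega⟩
    rw [Nat.add_sub_cancel, mul_comm]
    exact (Nat.even_mul_succ_self m).two_dvd
  have h2e : 2 * (k * (k - 1) / 2) = k * (k - 1) := Nat.mul_div_cancel' heven
  have hpos : 0 < k * (k - 1) := Nat.mul_pos (by omega) (by omega)
  have he0 : k * (k - 1) / 2 ≠ 0 := by omega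
  have hidx := cyc_index F (k * (k - 1) / 2) (by rw [h2e]; exact hdvd)
  have hneg := cyc_neg_mem F (k * (k - 1) / 2) he0 (by rw [h2e]; exact hdvd)
  obtain ⟨c, hc1, hc2⟩ := cyc_reps Fˣ _ k hidx
  obtain ⟨a, ha⟩ := hsel _ _ k hidx he0 (by rw [h2e]; exact hbig) c
  have hne : ∀ i j, i < j → j < k → a j - a i ≠ 0 := by
    intro i j hij hjk h
    obtain ⟨h', -, h2⟩ := ha i j hij hjk
    rw [h] at h2
    exact mul_ne_zero (c i j).ne_zero h'.ne_zero h2.symm
  have h12 : (1 : F) ≠ -1 := by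
    intro h
    -- characteristic two contradicts 2 ∣ card F - 1
    have h2 : (2 : F) = 0 := by
      have : (1 : F) + 1 = 0 := by nth_rewrite 2 [h]; ring
      rw [← this]; norm_num
    have hK : 1 < Fintype.card F := Fintype.one_lt_card
    have hodd : 2 ∣ Fintype.card F - 1 := heven.trans hdvd
    have hcast : ((Fintype.card F : ℕ) : F) = 0 := FiniteField.cast_card_eq_zero F
    obtain ⟨m, hm⟩ := hodd
    have h3 : Fintype.card F = 2 * m + 1 := by omega
    rw [h3] at hcast
    push_cast at hcast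
    rw [h2, zero_mul, zero_add] at hcast
    exact one_ne_zero hcast
  refine cyc_blocks F k _ hneg h12 a ?_ ?_ hne
  · intro u
    obtain ⟨i, j, hij, hjk, hmem⟩ := hc1 u
    obtain ⟨h, hh, heq⟩ := ha i j hij hjk
    refine ⟨i, j, hij, hjk, (c i j)⁻¹ * u * h⁻¹, ?_, ?_⟩
    · exact Subgroup.mul_mem _ hmem (Subgroup.inv_mem _ hh)
    · rw [heq]
      have : ((u : Fˣ) : F) = (((c i j)⁻¹ * u * h⁻¹ * (c i j * h) : Fˣ) : F) := by
        congr 1
        have h5 : (c i j)⁻¹ * u * h⁻¹ * (c i j * h)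
            = u * (((c i j)⁻¹ * c i j) * (h⁻¹ * h)) := by
          simp only [mul_assoc, mul_comm, mul_left_comm]
        rw [h5, inv_mul_cancel, inv_mul_cancel, mul_one, mul_one]
      rw [this]
      push_cast
      ring
  · intro i j i' j' hij hjk hij' hjk' h hh heq
    obtain ⟨h1, hh1, heq1⟩ := ha i j hij hjk
    obtain ⟨h2, hh2, heq2⟩ := ha i' j' hij' hjk'
    apply hc2 i j i' j' hij hjk hij' hjk'
    rw [heq1, heq2] at heq
    have h3 : c i j * h1 = h * (c i' j' * h2) := by
      apply Units.ext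
      push_cast
      exact heq
    have h4 : (c i j)⁻¹ * c i' j' = h1 * h⁻¹ * h2⁻¹ := by
      have h5 : c i j = h * (c i' j' * h2) * h1⁻¹ := by rw [← h3]; group
      rw [h5]
      simp only [mul_inv_rev, inv_inv]
      have : h1 * (h2⁻¹ * (c i' j')⁻¹ * h⁻¹) * c i' j'
        = h1 * h⁻¹ * h2⁻¹ * ((c i' j')⁻¹ * c i' j') := by
          simp only [mul_assoc, mul_comm, mul_left_comm]
      rw [this, inv_mul_cancel, mul_one]
    rw [h4]
    exact Subgroup.mul_mem _ (Subgroup.mul_mem _ hh1 (Subgroup.inv_mem _ hh))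
      (Subgroup.inv_mem _ hh2)

end Pool.Agent.WG
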