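import Pool.Agent.WG.CYC2
import Pool.Agent.WG.CYC3a

set_option autoImplicit false

/-! Module CYC3: the cyclotomic design. -/

namespace Pool.Agent.WG

open Pool.Agent.WB

theorem cyc_design (F : Type) [Field F] [Fintype F] (k : ℕ) (hk : 2 ≤ k)
    (hdvd : k * (k - 1) ∣ Fintype.card F - 1)
    (hbig : 16 * k * (k * (k - 1) / 2) ^ 2 * (k * (k - 1)) ^ (2 * k) < Fintype.card F) :
    PB {k} (Fintype.card F) :=
  cyc_design_of F (fun H e k he he0 hb c => coset_select F H e k he he0 hb c) k hk hdvd hbig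

end Pool.Agent.WG
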