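import Pool.Agent.WB.Basic

set_option autoImplicit false

/-! Module DEL: deleting a point of a design. -/

namespace Pool.Agent.WG

open Pool.Agent.WB

theorem DEL {k r : ℕ} (hk : 2 ≤ k) (h : PB {k} ((k - 1) * r + 1)) : GD k (k - 1) r := by
  classical
  generalize hn : (k - 1) * r + 1 = n at h
  obtain ⟨𝓑, hB, hU⟩ := h
  obtain ⟨o, -⟩ : ∃ o : Fin n, o.1 = (k - 1) * r := ⟨⟨(k - 1) * r, by omega⟩, rfl⟩
  -- the block through the point at infinity
  have key : ∀ x : {x : Fin n // x ≠ o}, ∃ B : {B : Finset (Fin n) // B ∈ 𝓑 ∧ o ∈ B},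
      x.1 ∈ B.1 := by
    rintro ⟨x, hx⟩
    obtain ⟨B, ⟨hBm, hxB, hoB⟩, -⟩ := hU x o (by rw [SimpleGraph.top_adj]; exact hx)
    exact ⟨⟨B, hBm, hoB⟩, hxB⟩
  choose g hg using key
  have guniq : ∀ (x : {x : Fin n // x ≠ o}) (B : {B : Finset (Fin n) // B ∈ 𝓑 ∧ o ∈ B}),
      x.1 ∈ B.1 → g x = B := by
    rintro ⟨x, hx⟩ ⟨B, hBm, hoB⟩ hxB
    obtain ⟨B', -, huniq⟩ := hU x o (by rw [SimpleGraph.top_adj]; exact hx)
    apply Subtype.ext
    exact (huniq (g ⟨x, hx⟩).1 ⟨(g ⟨x, hx⟩).2.1, hg ⟨x, hx⟩, (g ⟨x, hx⟩).2.2⟩).trans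
      (huniq B ⟨hBm, hxB, hoB⟩).symm
  have hfib : ∀ B : {B : Finset (Fin n) // B ∈ 𝓑 ∧ o ∈ B}, Nat.card {x // g x = B} = k - 1 := by
    intro B
    have e : {x // g x = B} ≃ {x : Fin n // x ∈ B.1.erase o} :=
      { toFun := fun x => ⟨x.1.1, by
          rw [Finset.mem_erase]
          refine ⟨x.1.2, ?_⟩
          have h1 := hg x.1
          rwa [x.2] at h1⟩
        invFun := fun x => ⟨⟨x.1, (Finset.mem_erase.1 x.2).1⟩,
          guniq _ _ (Finset.mem_erase.1 x.2).2⟩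
        left_inv := fun x => rfl
        right_inv := fun x => rfl }
    rw [Nat.card_congr e, Nat.card_eq_fintype_card, Fintype.card_coe,
      Finset.card_erase_of_mem B.2.2]
    have h2 : B.1.card = k := (hB _ B.2.1).1
    rw [h2]
  have hι : Nat.card {B : Finset (Fin n) // B ∈ 𝓑 ∧ o ∈ B} = r := by
    have h1 : Nat.card {x : Fin n // x ≠ o} = (k - 1) * r := by
      rw [Nat.card_eq_fintype_card, Fintype.card_subtype_compl, Fintype.card_subtype_eq,
        Fintype.card_fin]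
      omega
    have h2 : Nat.card {x : Fin n // x ≠ o} =
        Nat.card (Σ B : {B : Finset (Fin n) // B ∈ 𝓑 ∧ o ∈ B}, {x // g x = B}) :=
      Nat.card_congr (Equiv.sigmaFiberEquiv g).symm
    rw [Nat.card_sigma] at h2
    simp only [hfib, Finset.sum_const, Finset.card_univ, smul_eq_mul] at h2
    rw [← Nat.card_eq_fintype_card] at h2
    rw [h1] at h2
    have h3 : 0 < k - 1 := by omega
    rw [mul_comm (k - 1) r] at h2
    exact (Nat.eq_of_mul_eq_mul_right h3 h2).symm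
  refine GD.of g hι hfib ?_
  refine ⟨{C | ∃ B ∈ 𝓑, o ∉ B ∧ C.map (Function.Embedding.subtype _) = B}, ?_, ?_⟩
  · rintro C ⟨B, hBm, hoB, hCB⟩
    refine ⟨?_, ?_⟩
    · have h1 := (hB B hBm).1
      rw [← hCB, Finset.card_map] at h1
      exact h1
    · intro x hx y hy hxy
      rw [MP_adj]
      intro hgxy
      have hxB : x.1 ∈ B := by
        rw [← hCB, Finset.mem_map]
        exact ⟨x, hx, rfl⟩
      have hyB : y.1 ∈ B := by
        rw [← hCB, Finset.mem_map]
        exact ⟨y, hy, rfl⟩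
      obtain ⟨B', -, huniq⟩ := hU x.1 y.1 (by
        rw [SimpleGraph.top_adj]; intro h; exact hxy (Subtype.ext h))
      have h1 := huniq B ⟨hBm, hxB, hyB⟩
      have h2 := huniq (g x).1 ⟨(g x).2.1, hg x, by rw [hgxy]; exact hg y⟩
      apply hoB
      rw [h1, ← h2]
      exact (g x).2.2
  · intro x y hxy
    rw [MP_adj] at hxy
    have hne : x.1 ≠ y.1 := by
      intro h
      apply hxy
      rw [Subtype.ext h]
    obtain ⟨B, ⟨hBm, hxB, hyB⟩, huniq⟩ := hU x.1 y.1 (by rw [SimpleGraph.top_adj]; exact hne)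
    have hoB : o ∉ B := by
      intro hoB
      apply hxy
      rw [guniq x ⟨B, hBm, hoB⟩ hxB, guniq y ⟨B, hBm, hoB⟩ hyB]
    have hmap : (B.subtype (fun x => x ≠ o)).map (Function.Embedding.subtype _) = B := by
      apply Finset.subtype_map_of_mem
      rintro z hz rfl
      exact hoB hz
    refine ⟨B.subtype (fun x => x ≠ o), ⟨⟨B, hBm, hoB, hmap⟩, ?_, ?_⟩, ?_⟩
    · rw [Finset.mem_subtype]; exact hxB
    · rw [Finset.mem_subtype]; exact hyB
    · rintro C ⟨⟨B', hB'm, hoB', hCB'⟩, hxC, hyC⟩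
      have hxB' : x.1 ∈ B' := by
        rw [← hCB', Finset.mem_map]
        exact ⟨x, hxC, rfl⟩
      have hyB' : y.1 ∈ B' := by
        rw [← hCB', Finset.mem_map]
        exact ⟨y, hyC, rfl⟩
      have h1 := huniq B' ⟨hB'm, hxB', hyB'⟩
      subst h1
      apply Finset.map_injective (Function.Embedding.subtype _)
      rw [hCB', hmap]

end Pool.Agent.WG
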