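import Pool.Agent.WB.Basic

set_option autoImplicit false

/-! Module FILL: the groups of a group divisible design are filled. -/

namespace Pool.Agent.WG

open Pool.Agent.WB

/-- The edges inside the groups. -/
def fillIn (v w : ℕ) : SimpleGraph (Fin v × Fin w) where
  Adj x y := x.1 = y.1 ∧ x.2 ≠ y.2
  symm := ⟨fun _ _ h => ⟨h.1.symm, h.2.symm⟩⟩
  loopless := ⟨fun _ h => h.2 rfl⟩

/-- The edges inside one group. -/
def fillIn1 (v w : ℕ) (i : Fin v) : SimpleGraph (Fin v × Fin w) where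
  Adj x y := x.1 = i ∧ y.1 = i ∧ x.2 ≠ y.2
  symm := ⟨fun _ _ h => ⟨h.2.1, h.1, h.2.2.symm⟩⟩
  loopless := ⟨fun _ h => h.2.2 rfl⟩

theorem PB_fill {k w v : ℕ} (h : GD k w v) (hw : PB {k} w) : PB {k} (w * v) := by
  refine PB.of (V := Fin v × Fin w) (by simp [mul_comm]) ?_
  have h2 : CDec {k} (fillIn v w) := by
    refine CDec.glue (fun i : Fin v => fillIn1 v w i) ?_ ?_ ?_
    · rintro i x y ⟨hx, hy, hxy⟩
      exact ⟨hx.trans hy.symm, hxy⟩
    · rintro x y ⟨hxy, hne⟩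
      refine ⟨x.1, ⟨rfl, hxy.symm, hne⟩, ?_⟩
      rintro j ⟨hj, -, -⟩
      exact hj.symm
    · intro i
      refine CDec.map (fun x : Fin w => (i, x)) ?_ ?_ ?_ hw
      · intro a b hab
        simp only [Prod.mk.injEq, true_and] at hab
        exact hab
      · intro a b hab
        exact ⟨rfl, rfl, hab.ne⟩
      · rintro ⟨x1, x2⟩ ⟨y1, y2⟩ ⟨hx, hy, hxy⟩
        simp only at hx hy hxy
        subst hx
        subst hy
        exact ⟨x2, y2, hxy, rfl, rfl⟩
  refine CDec.sup ?_ ?_ h h2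
  · rintro ⟨x1, x2⟩ ⟨y1, y2⟩
    rw [SimpleGraph.top_adj, MP_adj]
    simp only [ne_eq, Prod.mk.injEq, fillIn]
    tauto
  · intro x y hxy h
    rw [MP_adj] at hxy
    exact hxy h.1

end Pool.Agent.WG
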