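import Pool.Agent.WB.Basic

set_option autoImplicit false

/-! Module G3P: the groups of a group divisible design together with one group at infinity are
filled with group divisible designs. -/

namespace Pool.Agent.WG

open Pool.Agent.WB

/-- the map `o ↦ (i, o)` which fixes the point at infinity -/
def g3pf (v m : ℕ) (i : Fin v) : Option (Fin m) → Option (Fin v × Fin m)
  | none => none
  | some j => some (i, j)

theorem g3pf_inj (v m : ℕ) (i : Fin v) : Function.Injective (g3pf v m i) := by
  intro a b h
  cases a with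
  | none =>
    cases b with
    | none => rfl
    | some b => simp [g3pf] at h
  | some a =>
    cases b with
    | none => simp [g3pf] at h
    | some b =>
      simp only [g3pf, Option.some.injEq, Prod.mk.injEq, true_and] at h
      rw [h]

/-- edges between different first coordinates -/
def g3pA (v m w : ℕ) : SimpleGraph (Option (Fin v × Fin m) × Fin w) where
  Adj x y := ∃ a b, x.1 = some a ∧ y.1 = some b ∧ a.1 ≠ b.1
  symm := ⟨fun _ _ ⟨a, b, h1, h2, h3⟩ => ⟨b, a, h2, h1, h3.symm⟩⟩
  loopless := ⟨fun x ⟨a, b, h1, h2, h3⟩ => by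
    rw [h1, Option.some.injEq] at h2
    exact h3 (by rw [h2])⟩

/-- edges inside one group of the first coordinate together with the point at infinity -/
def g3pB (v m w : ℕ) (i : Fin v) : SimpleGraph (Option (Fin v × Fin m) × Fin w) where
  Adj x y := ∃ a b, a ≠ b ∧ x.1 = g3pf v m i a ∧ y.1 = g3pf v m i b
  symm := ⟨fun _ _ ⟨a, b, h1, h2, h3⟩ => ⟨b, a, h1.symm, h3, h2⟩⟩
  loopless := ⟨fun x ⟨a, b, h1, h2, h3⟩ => h1 (g3pf_inj v m i (h2.symm.trans h3))⟩

/-- all the edges of the second kind -/
def g3pC (v m w : ℕ) : SimpleGraph (Option (Fin v × Fin m) × Fin w) where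
  Adj x y := ∃ i, (g3pB v m w i).Adj x y
  symm := ⟨fun _ _ ⟨i, h⟩ => ⟨i, h.symm⟩⟩
  loopless := ⟨fun x ⟨i, h⟩ => (g3pB v m w i).loopless.irrefl x h⟩

theorem G3P {k w m v : ℕ} (h : GD k (w * m) v) (h' : GD k w (m + 1)) :
    GD k w (m * v + 1) := by
  refine GD.of_prod (A := Option (Fin v × Fin m)) (M := Fin w) (by simp [mul_comm]) (by simp) ?_
  have h1 : CDec {k} (MP (fun x : (Fin v × Fin m) × Fin w => x.1.1)) := by
    refine h.to _ (by simp) ?_
    intro i
    have e : {x : (Fin v × Fin m) × Fin w // x.1.1 = i} ≃ Fin m × Fin w :=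
      { toFun := fun x => (x.1.1.2, x.1.2)
        invFun := fun x => ⟨((i, x.1), x.2), rfl⟩
        left_inv := by rintro ⟨⟨⟨a, b⟩, c⟩, rfl⟩; rfl
        right_inv := fun x => rfl }
    rw [Nat.card_congr e]
    simp [mul_comm]
  have h2 : CDec {k} (g3pA v m w) := by
    refine CDec.map (fun x => (some x.1, x.2)) ?_ ?_ ?_ h1
    · rintro ⟨a, b⟩ ⟨c, d⟩ hxy
      simp only [Prod.mk.injEq, Option.some.injEq] at hxy
      exact Prod.ext hxy.1 hxy.2
    · rintro ⟨a, b⟩ ⟨c, d⟩ hxy
      rw [MP_adj] at hxy
      exact ⟨a, c, rfl, rfl, hxy⟩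
    · rintro ⟨x1, x2⟩ ⟨y1, y2⟩ ⟨a, b, ha, hb, hab⟩
      simp only at ha hb
      subst ha
      subst hb
      exact ⟨(a, x2), (b, y2), by rw [MP_adj]; exact hab, rfl, rfl⟩
  have h3 : CDec {k} (g3pC v m w) := by
    refine CDec.glue (fun i : Fin v => g3pB v m w i) ?_ ?_ ?_
    · intro i x y hxy
      exact ⟨i, hxy⟩
    · rintro x y ⟨i, hi⟩
      refine ⟨i, hi, ?_⟩
      intro j hj
      obtain ⟨a, b, hab, hx, hy⟩ := hi
      obtain ⟨a', b', hab', hx', hy'⟩ := hj
      rw [hx] at hx'
      rw [hy] at hy'
      cases a with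
      | some a =>
        cases a' with
        | none => simp [g3pf] at hx'
        | some a' =>
          simp only [g3pf, Option.some.injEq, Prod.mk.injEq] at hx'
          exact hx'.1.symm
      | none =>
        cases b with
        | none => exact absurd rfl hab
        | some b =>
          cases b' with
          | none => simp [g3pf] at hy'
          | some b' =>
            simp only [g3pf, Option.some.injEq, Prod.mk.injEq] at hy'
            exact hy'.1.symm
    · intro i
      have h4 : CDec {k} (MP (Prod.fst : Option (Fin m) × Fin w → Option (Fin m))) :=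
        h'.prod (by simp) (by simp)
      refine CDec.map (fun x => (g3pf v m i x.1, x.2)) ?_ ?_ ?_ h4
      · rintro ⟨a, b⟩ ⟨c, d⟩ hxy
        simp only [Prod.mk.injEq] at hxy
        exact Prod.ext (g3pf_inj v m i hxy.1) hxy.2
      · rintro ⟨a, b⟩ ⟨c, d⟩ hxy
        rw [MP_adj] at hxy
        exact ⟨a, c, hxy, rfl, rfl⟩
      · rintro ⟨x1, x2⟩ ⟨y1, y2⟩ ⟨a, b, hab, ha, hb⟩
        simp only at ha hb
        subst ha
        subst hb
        exact ⟨(a, x2), (b, y2), by rw [MP_adj]; exact hab, rfl, rfl⟩
  refine CDec.sup ?_ ?_ h2 h3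
  · rintro ⟨x1, x2⟩ ⟨y1, y2⟩
    rw [MP_adj]
    simp only [ne_eq]
    constructor
    · intro hne
      rcases x1 with _ | ⟨i, j⟩ <;> rcases y1 with _ | ⟨i', j'⟩
      · exact absurd rfl hne
      · exact Or.inr ⟨i', none, some j', by simp, rfl, rfl⟩
      · exact Or.inr ⟨i, some j, none, by simp, rfl, rfl⟩
      · by_cases hi : i = i'
        · subst hi
          refine Or.inr ⟨i, some j, some j', ?_, rfl, rfl⟩
          rintro hj
          exact hne (by rw [Option.some.inj hj])
        · exact Or.inl ⟨(i, j), (i', j'), rfl, rfl, hi⟩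
    · rintro (⟨a, b, ha, hb, hab⟩ | ⟨i, a, b, hab, ha, hb⟩)
      · simp only at ha hb
        subst ha
        subst hb
        intro h
        exact hab (by rw [Option.some.inj h])
      · simp only at ha hb
        subst ha
        subst hb
        intro h
        exact hab (g3pf_inj v m i h)
  · rintro x y ⟨a, b, ha, hb, hab⟩ ⟨i, a', b', hab', ha', hb'⟩
    rw [ha] at ha'
    rw [hb] at hb'
    cases a' with
    | none => simp [g3pf] at ha'
    | some a' =>
      cases b' with
      | none => simp [g3pf] at hb'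
      | some b' =>
        simp only [g3pf, Option.some.injEq] at ha' hb'
        apply hab
        rw [ha', hb']

end Pool.Agent.WG
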