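import Mathlib

set_option autoImplicit false

/-!
# INT: `(v,k,λ)`-designs with `λ = 1 + m * choose (v-2) (k-2)`
-/

namespace Pool.Agent.WG

namespace IntD

open Finset

variable {v : ℕ}

/-- difference of two point masses -/
def dl (a a' x : Fin v) : ℤ := (if x = a then 1 else 0) - (if x = a' then 1 else 0)

/-- the signed sum of four pairs -/
def Q (a a' b b' x y : Fin v) : ℤ := dl a a' x * dl b b' y + dl b b' x * dl a a' y

/-- `w` is the pair count of a signed collection of `k`-subsets with multiplicities at most `M` -/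
def Rz (k : ℕ) (M : ℤ) (w : Fin v → Fin v → ℤ) : Prop :=
  ∃ f : Finset (Fin v) → ℤ, (∀ B, |f B| ≤ M) ∧ ∀ x y : Fin v, x ≠ y →
    ∑ B ∈ (Finset.univ.powersetCard k).filter (fun B => x ∈ B ∧ y ∈ B), f B = w x y

theorem Rz.congr {k : ℕ} {M : ℤ} {w w' : Fin v → Fin v → ℤ} (h : Rz k M w)
    (hw : ∀ x y, x ≠ y → w x y = w' x y) : Rz k M w' := by
  obtain ⟨f, hf, hs⟩ := h
  exact ⟨f, hf, fun x y hxy => (hs x y hxy).trans (hw x y hxy)⟩

theorem Rz.mono {k : ℕ} {M M' : ℤ} {w : Fin v → Fin v → ℤ} (h : Rz k M w) (hM : M ≤ M') :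
    Rz k M' w := by
  obtain ⟨f, hf, hs⟩ := h
  exact ⟨f, fun B => (hf B).trans hM, hs⟩

theorem Rz.zero {k : ℕ} {M : ℤ} (hM : 0 ≤ M) : Rz (v := v) k M (fun _ _ => 0) :=
  ⟨fun _ => 0, fun B => by simpa using hM, fun x y _ => by simp⟩

theorem Rz.add {k : ℕ} {M M' : ℤ} {w w' : Fin v → Fin v → ℤ} (h : Rz k M w) (h' : Rz k M' w') :
    Rz k (M + M') (fun x y => w x y + w' x y) := by
  obtain ⟨f, hf, hs⟩ := h
  obtain ⟨f', hf', hs'⟩ := h'
  refine ⟨fun B => f B + f' B, fun B => (abs_add_le _ _).trans (add_le_add (hf B) (hf' B)), ?_⟩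
  intro x y hxy
  rw [Finset.sum_add_distrib, hs x y hxy, hs' x y hxy]

theorem Rz.smul {k : ℕ} {M : ℤ} {w : Fin v → Fin v → ℤ} (h : Rz k M w) (c L : ℤ) (hc : |c| ≤ L)
    (hM : 0 ≤ M) :
    Rz k (L * M) (fun x y => c * w x y) := by
  obtain ⟨f, hf, hs⟩ := h
  refine ⟨fun B => c * f B, fun B => ?_, ?_⟩
  · rw [abs_mul]
    exact mul_le_mul hc (hf B) (abs_nonneg _) ((abs_nonneg c).trans hc)
  · intro x y hxy
    rw [← Finset.mul_sum, hs x y hxy]

theorem Rz.sum {ι : Type} {k : ℕ} {M : ℤ} (s : Finset ι) (w : ι → Fin v → Fin v → ℤ)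
    (h : ∀ i ∈ s, Rz k M (w i)) : Rz k (s.card * M) (fun x y => ∑ i ∈ s, w i x y) := by
  classical
  induction s using Finset.induction_on with
  | empty =>
    simp only [Finset.card_empty, Finset.sum_empty]
    exact Rz.zero (by simp)
  | insert a s ha ih =>
    have h1 := ih (fun i hi => h i (Finset.mem_insert_of_mem hi))
    have h2 := h a (Finset.mem_insert_self a s)
    have h3 := h2.add h1
    refine (h3.mono ?_).congr ?_
    · rw [Finset.card_insert_of_notMem ha]
      push_cast
      linarith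
    · intro x y _
      rw [Finset.sum_insert ha]

/-- one block -/
theorem Rz.block {k : ℕ} (B₀ : Finset (Fin v)) (hB : B₀.card = k) :
    Rz k 1 (fun x y => (if x ∈ B₀ then 1 else 0) * (if y ∈ B₀ then 1 else 0)) := by
  classical
  refine ⟨fun B => if B = B₀ then 1 else 0, fun B => ?_, ?_⟩
  · dsimp only
    split_ifs <;> simp
  · intro x y _
    rw [Finset.sum_ite_eq' _ B₀]
    simp only [Finset.mem_filter, Finset.mem_powersetCard, Finset.subset_univ, true_and, hB]
    by_cases hx : x ∈ B₀ <;> by_cases hy : y ∈ B₀ <;> simp [hx, hy]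

theorem dl_sum (a a' : Fin v) : ∑ x, dl a a' x = 0 := by
  simp [dl]

/-- the vectors `Q` -/
theorem Rz.ofQ {k : ℕ} (hk : 2 ≤ k) (hv : k + 2 ≤ v) {a a' b b' : Fin v} (_h1 : a ≠ a') (h2 : a ≠ b)
    (h3 : a ≠ b') (h4 : a' ≠ b) (h5 : a' ≠ b') (_h6 : b ≠ b') :
    Rz k 4 (Q a a' b b') := by
  classical
  -- choose the set `S`
  obtain ⟨S, hS, hSc⟩ : ∃ S ⊆ (Finset.univ \ {a, a', b, b'} : Finset (Fin v)), S.card = k - 2 := by
    apply Finset.exists_subset_card_eq
    rw [Finset.card_sdiff_of_subset (Finset.subset_univ _), Finset.card_univ, Fintype.card_fin]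
    have : ({a, a', b, b'} : Finset (Fin v)).card ≤ 4 := Finset.card_le_four
    omega
  have hnot : ∀ c ∈ ({a, a', b, b'} : Finset (Fin v)), c ∉ S := by
    intro c hc hcS
    have := hS hcS
    rw [Finset.mem_sdiff] at this
    exact this.2 hc
  have ha : a ∉ S := hnot a (by simp)
  have ha' : a' ∉ S := hnot a' (by simp)
  have hb : b ∉ S := hnot b (by simp)
  have hb' : b' ∉ S := hnot b' (by simp)
  have hblk : ∀ c d : Fin v, c ∉ S → d ∉ S → c ≠ d →
      Rz k 1 (fun x y => ((if x ∈ S then 1 else 0) + (if x = c then 1 else 0) +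
        (if x = d then 1 else 0)) * ((if y ∈ S then 1 else 0) + (if y = c then 1 else 0) +
        (if y = d then 1 else 0))) := by
    intro c d hc hd hcd
    have hcard : (insert c (insert d S)).card = k := by
      rw [Finset.card_insert_of_notMem, Finset.card_insert_of_notMem hd, hSc]
      · omega
      · simp only [Finset.mem_insert, not_or]
        exact ⟨hcd, hc⟩
    have hind : ∀ x : Fin v, (if x ∈ insert c (insert d S) then (1 : ℤ) else 0) =
        (if x ∈ S then 1 else 0) + (if x = c then 1 else 0) + (if x = d then 1 else 0) := by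
      intro x
      simp only [Finset.mem_insert]
      by_cases e1 : x = c
      · subst e1
        simp [hc, hcd]
      · by_cases e2 : x = d
        · subst e2
          simp [hd, e1]
        · by_cases e3 : x ∈ S <;> simp [e1, e2, e3]
    refine (Rz.block _ hcard).congr ?_
    intro x y _
    rw [hind x, hind y]
  have e1 := hblk a b ha hb h2
  have e2 := (hblk a' b ha' hb h4).smul (-1) 1 (by simp) (by norm_num)
  have e3 := (hblk a b' ha hb' h3).smul (-1) 1 (by simp) (by norm_num)
  have e4 := hblk a' b' ha' hb' h5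
  refine (((e1.add e2).add e3).add e4 |>.mono (by norm_num)).congr ?_
  intro x y _
  simp only [Q, dl]
  ring

/-- symmetric integer vectors with all degrees zero -/
structure Zc (w : Fin v → Fin v → ℤ) : Prop where
  symm : ∀ x y, w x y = w y x
  diag : ∀ x, w x x = 0
  deg : ∀ x, ∑ y, w x y = 0

theorem Zc.sub {w w' : Fin v → Fin v → ℤ} (h : Zc w) (h' : Zc w') :
    Zc (fun x y => w x y - w' x y) where
  symm x y := by rw [h.symm x y, h'.symm x y]
  diag x := by rw [h.diag, h'.diag, sub_zero]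
  deg x := by rw [Finset.sum_sub_distrib, h.deg, h'.deg, sub_zero]

theorem Zc.smul {w : Fin v → Fin v → ℤ} (h : Zc w) (c : ℤ) : Zc (fun x y => c * w x y) where
  symm x y := by rw [h.symm x y]
  diag x := by rw [h.diag, mul_zero]
  deg x := by rw [← Finset.mul_sum, h.deg, mul_zero]

theorem Zc.zero : Zc (fun _ _ : Fin v => (0 : ℤ)) where
  symm _ _ := rfl
  diag _ := rfl
  deg _ := by simp

theorem Zc.sum {ι : Type} (s : Finset ι) (w : ι → Fin v → Fin v → ℤ) (h : ∀ i ∈ s, Zc (w i)) :
    Zc (fun x y => ∑ i ∈ s, w i x y) where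
  symm x y := Finset.sum_congr rfl (fun i hi => (h i hi).symm x y)
  diag x := Finset.sum_eq_zero (fun i hi => (h i hi).diag x)
  deg x := by
    rw [Finset.sum_comm]
    exact Finset.sum_eq_zero (fun i hi => (h i hi).deg x)

theorem Zc.ofQ {a a' b b' : Fin v} (h2 : a ≠ b) (h3 : a ≠ b') (h4 : a' ≠ b) (h5 : a' ≠ b') :
    Zc (Q a a' b b') where
  symm x y := by simp only [Q]; ring
  diag x := by
    have : dl a a' x * dl b b' x = 0 := by
      simp only [dl]
      by_cases e1 : x = a
      · subst e1; simp [h2, h3]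
      · by_cases e2 : x = a'
        · subst e2; simp [h4, h5]
        · simp [e1, e2]
    simp only [Q]
    linear_combination 2 * this
  deg x := by
    simp only [Q]
    rw [Finset.sum_add_distrib, ← Finset.mul_sum, ← Finset.mul_sum, dl_sum, dl_sum]
    ring

/-- the last step of the elimination -/
theorem Zc.eq_zero {w : Fin v → Fin v → ℤ} (h : Zc w) (p q r : Fin v) (hpq : p ≠ q) (hpr : p ≠ r)
    (hqr : q ≠ r) (h1 : ∀ x y, x ≠ p → x ≠ q → y ≠ p → y ≠ q → w x y = 0)
    (h2 : ∀ x, x ≠ p → x ≠ q → x ≠ r → w x p = 0) : ∀ x y, w x y = 0 := by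
  have h3 : ∀ x, x ≠ p → x ≠ q → w x p + w x q = 0 := by
    intro x hx1 hx2
    rw [← h.deg x, Fintype.sum_eq_add p q hpq]
    intro y hy
    exact h1 x y hx1 hx2 hy.1 hy.2
  have h4 : ∀ x, x ≠ p → x ≠ q → x ≠ r → w x q = 0 := by
    intro x hx1 hx2 hx3
    have := h3 x hx1 hx2
    rw [h2 x hx1 hx2 hx3] at this
    linarith
  have hp : w p q + w p r = 0 := by
    rw [← h.deg p, Fintype.sum_eq_add q r hqr]
    intro y hy
    by_cases e : y = p
    · rw [e, h.diag]
    · rw [h.symm, h2 y e hy.1 hy.2]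
  have hq : w q p + w q r = 0 := by
    rw [← h.deg q, Fintype.sum_eq_add p r hpr]
    intro y hy
    by_cases e : y = q
    · rw [e, h.diag]
    · rw [h.symm, h4 y hy.1 e hy.2]
  have hr := h3 r hpr.symm hqr.symm
  have s1 := h.symm q p
  have s2 := h.symm p r
  have s3 := h.symm q r
  have z1 : w p q = 0 := by linarith
  have z2 : w r p = 0 := by linarith
  have z3 : w r q = 0 := by linarith
  have hxp : ∀ x, w x p = 0 := by
    intro x
    by_cases e1 : x = p
    · rw [e1, h.diag]
    · by_cases e2 : x = q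
      · rw [e2, s1, z1]
      · by_cases e3 : x = r
        · rw [e3, z2]
        · exact h2 x e1 e2 e3
  have hxq : ∀ x, w x q = 0 := by
    intro x
    by_cases e1 : x = p
    · rw [e1, z1]
    · by_cases e2 : x = q
      · rw [e2, h.diag]
      · by_cases e3 : x = r
        · rw [e3, z3]
        · exact h4 x e1 e2 e3
  intro x y
  by_cases e1 : y = p
  · rw [e1, hxp]
  · by_cases e2 : y = q
    · rw [e2, hxq]
    · by_cases e3 : x = p
      · rw [e3, h.symm, hxp]
      · by_cases e4 : x = q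
        · rw [e4, h.symm, hxq]
        · exact h1 x y e3 e4 e1 e2

/-- coefficients of the first sum -/
def uu (w : Fin v → Fin v → ℤ) (p q a b : Fin v) : ℤ :=
  if a < b ∧ a ≠ p ∧ a ≠ q ∧ b ≠ p ∧ b ≠ q then w a b else 0

theorem uu_abs {w : Fin v → Fin v → ℤ} {M : ℤ} (hM : ∀ x y, |w x y| ≤ M) (h0 : 0 ≤ M)
    (p q a b : Fin v) : |uu w p q a b| ≤ M := by
  unfold uu
  split_ifs
  · exact hM a b
  · simpa using h0

/-- the first sum -/
def W1 (w : Fin v → Fin v → ℤ) (p q x y : Fin v) : ℤ :=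
  ∑ a, ∑ b, uu w p q a b * Q a p b q x y

theorem W1_zc (w : Fin v → Fin v → ℤ) {p q : Fin v} (hpq : p ≠ q) : Zc (W1 w p q) := by
  refine Zc.sum Finset.univ (fun a x y => ∑ b, uu w p q a b * Q a p b q x y) (fun a _ => ?_)
  refine Zc.sum Finset.univ (fun b x y => uu w p q a b * Q a p b q x y) (fun b _ => ?_)
  unfold uu
  split_ifs with h
  · exact (Zc.ofQ h.1.ne h.2.2.1 h.2.2.2.1.symm hpq).smul _
  · refine ⟨fun x y => by simp, fun x => by simp, fun x => by simp⟩

theorem W1_rz {k : ℕ} (hk : 2 ≤ k) (hv : k + 2 ≤ v) {w : Fin v → Fin v → ℤ} {M : ℤ}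
    (hM : ∀ x y, |w x y| ≤ M) (h0 : 0 ≤ M) {p q : Fin v} (hpq : p ≠ q) :
    Rz k ((v : ℤ) * (v * (M * 4))) (W1 w p q) := by
  have h1 : ∀ a b : Fin v, Rz k (M * 4) (fun x y => uu w p q a b * Q a p b q x y) := by
    intro a b
    have hu := uu_abs hM h0 p q a b
    by_cases h : a < b ∧ a ≠ p ∧ a ≠ q ∧ b ≠ p ∧ b ≠ q
    · exact (Rz.ofQ hk hv h.2.1 h.1.ne h.2.2.1 h.2.2.2.1.symm hpq h.2.2.2.2).smul _ M hu
        (by norm_num)
    · have h2 : uu w p q a b = 0 := by
        unfold uu
        rw [if_neg h]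
      rw [h2]
      refine (Rz.zero (by positivity)).congr ?_
      intro x y _
      simp
  have h2 : ∀ a : Fin v, Rz k ((v : ℤ) * (M * 4))
      (fun x y => ∑ b, uu w p q a b * Q a p b q x y) := by
    intro a
    have := Rz.sum Finset.univ (fun b x y => uu w p q a b * Q a p b q x y) (fun b _ => h1 a b)
    rw [Finset.card_univ, Fintype.card_fin] at this
    exact this
  have := Rz.sum Finset.univ (fun a x y => ∑ b, uu w p q a b * Q a p b q x y) (fun a _ => h2 a)
  rw [Finset.card_univ, Fintype.card_fin] at this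
  exact this

theorem W1_off (w : Fin v → Fin v → ℤ) (hw : Zc w) {p q : Fin v} (x y : Fin v) (hxy : x ≠ y)
    (h1 : x ≠ p) (h2 : x ≠ q) (h3 : y ≠ p) (h4 : y ≠ q) : W1 w p q x y = w x y := by
  unfold W1
  have e : ∀ a b : Fin v, uu w p q a b * Q a p b q x y =
      (if x = a then (if y = b then uu w p q a b else 0) else 0) +
      (if y = a then (if x = b then uu w p q a b else 0) else 0) := by
    intro a b
    simp only [Q, dl, h1, h2, h3, h4, if_false, sub_zero]
    rw [mul_add]
    congr 1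
    · split_ifs <;> simp
    · split_ifs <;> simp
  simp only [e, Finset.sum_add_distrib, Finset.sum_ite_irrel, Finset.sum_const_zero,
    Finset.sum_ite_eq, Finset.mem_univ, if_true]
  unfold uu
  rcases lt_or_gt_of_ne hxy with h | h
  · rw [if_pos ⟨h, h1, h2, h3, h4⟩, if_neg (fun h' => absurd h'.1 (not_lt.2 h.le)), add_zero]
  · rw [if_neg (fun h' => absurd h'.1 (not_lt.2 h.le)), if_pos ⟨h, h3, h4, h1, h2⟩, zero_add,
      hw.symm]

theorem W1_p (w : Fin v → Fin v → ℤ) {p q : Fin v} (hpq : p ≠ q) (x : Fin v)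
    (h1 : x ≠ p) (h2 : x ≠ q) : W1 w p q x p = -∑ a, uu w p q a x := by
  unfold W1
  have hu : ∀ b, uu w p q p b = 0 := by
    intro b
    unfold uu
    rw [if_neg (fun h => h.2.1 rfl)]
  have hu' : ∀ a, uu w p q a p = 0 := by
    intro b
    unfold uu
    rw [if_neg (fun h => h.2.2.2.1 rfl)]
  have e : ∀ a b : Fin v, uu w p q a b * Q a p b q x p =
      -(if x = b then uu w p q a b else 0) := by
    intro a b
    simp only [Q, dl, h1, h2, hpq, if_false, sub_zero, if_true]
    by_cases e2 : p = b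
    · subst e2
      rw [hu']
      simp
    · by_cases e3 : p = a
      · subst e3
        rw [hu]
        simp
      · by_cases e4 : x = b <;> simp [e2, e3, e4]
  simp only [e, Finset.sum_neg_distrib, Finset.sum_ite_eq, Finset.mem_univ, if_true]

/-- decomposition -/
theorem Zc.rz {k : ℕ} (hk : 2 ≤ k) (hv : k + 2 ≤ v) {w : Fin v → Fin v → ℤ} (hw : Zc w) {M : ℤ}
    (hM : ∀ x y, |w x y| ≤ M) (h0 : 0 ≤ M) :
    Rz k ((v : ℤ) * (v * (M * 4)) + v * (((v + 1) * M) * 4)) w := by
  let p : Fin v := ⟨0, by omega⟩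
  let q : Fin v := ⟨1, by omega⟩
  let r : Fin v := ⟨2, by omega⟩
  have hpq : p ≠ q := by simp [p, q, Fin.ext_iff]
  have hpr : p ≠ r := by simp [p, r, Fin.ext_iff]
  have hqr : q ≠ r := by simp [q, r, Fin.ext_iff]
  set w' : Fin v → Fin v → ℤ := fun x y => w x y - W1 w p q x y with hw'
  have hz' : Zc w' := hw.sub (W1_zc w hpq)
  have hoff : ∀ x y, x ≠ p → x ≠ q → y ≠ p → y ≠ q → w' x y = 0 := by
    intro x y h1 h2 h3 h4
    by_cases e : x = y
    · rw [e, hz'.diag]
    · simp only [hw']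
      rw [W1_off w hw x y e h1 h2 h3 h4, sub_self]
  have hbd : ∀ x, x ≠ p → x ≠ q → |w' x p| ≤ (v + 1) * M := by
    intro x h1 h2
    simp only [hw']
    rw [W1_p w hpq x h1 h2, sub_neg_eq_add]
    refine (abs_add_le _ _).trans ?_
    have h3 : |∑ a, uu w p q a x| ≤ ∑ a : Fin v, M :=
      (Finset.abs_sum_le_sum_abs _ _).trans
        (Finset.sum_le_sum (fun a _ => uu_abs hM h0 p q a x))
    rw [Finset.sum_const, Finset.card_univ, Fintype.card_fin, nsmul_eq_mul] at h3
    have h4 := hM x p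
    linarith
  -- second sum
  let c : Fin v → ℤ := fun a => if a ≠ p ∧ a ≠ q ∧ a ≠ r then w' a p else 0
  let W2 : Fin v → Fin v → ℤ := fun x y => ∑ a, c a * Q a r p q x y
  have hW2z : Zc W2 := by
    refine Zc.sum Finset.univ (fun a x y => c a * Q a r p q x y) (fun a _ => ?_)
    by_cases h : a ≠ p ∧ a ≠ q ∧ a ≠ r
    · exact (Zc.ofQ h.1 h.2.1 hpr.symm hqr.symm).smul _
    · have : c a = 0 := if_neg h
      simp only [this, zero_mul]
      exact Zc.zero
  have hW2r : Rz k ((v : ℤ) * (((v + 1) * M) * 4)) W2 := by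
    have h1 : ∀ a : Fin v, Rz k (((v + 1) * M) * 4) (fun x y => c a * Q a r p q x y) := by
      intro a
      by_cases h : a ≠ p ∧ a ≠ q ∧ a ≠ r
      · have hc : c a = w' a p := if_pos h
        rw [hc]
        exact (Rz.ofQ hk hv h.2.2 h.1 h.2.1 hpr.symm hqr.symm hpq).smul _ _ (hbd a h.1 h.2.1)
          (by norm_num)
      · have hc : c a = 0 := if_neg h
        rw [hc]
        refine (Rz.zero (by positivity)).congr ?_
        intro x y _
        simp
    have := Rz.sum Finset.univ (fun a x y => c a * Q a r p q x y) (fun a _ => h1 a)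
    rw [Finset.card_univ, Fintype.card_fin] at this
    exact this
  have hz'' : Zc (fun x y => w' x y - W2 x y) := hz'.sub hW2z
  have hfin := hz''.eq_zero p q r hpq hpr hqr (by
    intro x y h1 h2 h3 h4
    have e : W2 x y = 0 := by
      refine Finset.sum_eq_zero (fun a _ => ?_)
      simp only [Q, dl, h1, h2, h3, h4, if_false, sub_zero, mul_zero, zero_mul, add_zero]
    simp only [hoff x y h1 h2 h3 h4, e, sub_zero]) (by
    intro x h1 h2 h3
    have e : W2 x p = w' x p := by
      have e1 : ∀ a, c a * Q a r p q x p = if x = a then c a else 0 := by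
        intro a
        simp only [Q, dl, h1, h2, h3, hpq, if_false, sub_zero, if_true, zero_mul, add_zero, mul_one]
        split_ifs <;> simp
      simp only [W2, e1, Finset.sum_ite_eq, Finset.mem_univ, if_true]
      exact if_pos ⟨h1, h2, h3⟩
    simp only [e, sub_self])
  refine ((W1_rz hk hv hM h0 hpq).add hW2r).congr ?_
  intro x y _
  have h1 := hfin x y
  simp only [hw'] at h1
  linarith

/-! ### The 1-design -/

theorem sum_blocks (g : ℕ → ℤ) (b k : ℕ) :
    ∑ i ∈ Finset.range b, ∑ j ∈ Finset.range k, g (i * k + j) = ∑ t ∈ Finset.range (b * k), g t := by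
  induction b with
  | zero => simp
  | succ b ih =>
    rw [Finset.sum_range_succ, ih, Nat.succ_mul, Finset.sum_range_add]

/-- the block number `i` -/
def Dk (hv : 0 < v) (k i : ℕ) : Finset (Fin v) :=
  (Finset.range k).image (fun j => (⟨(i * k + j) % v, Nat.mod_lt _ hv⟩ : Fin v))

theorem Dk_inj (hv : 0 < v) {k : ℕ} (hk : k ≤ v) (i : ℕ) :
    Set.InjOn (fun j => (⟨(i * k + j) % v, Nat.mod_lt _ hv⟩ : Fin v)) (Finset.range k : Set ℕ) := by
  intro a ha b hb hab
  have ha' : a < k := by simpa using ha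
  have hb' : b < k := by simpa using hb
  have h1 : (i * k + a) % v = (i * k + b) % v := congrArg Fin.val hab
  have h2 : a ≡ b [MOD v] := Nat.ModEq.add_left_cancel' (i * k) h1
  have h3 : a % v = b % v := h2
  rwa [Nat.mod_eq_of_lt (by omega), Nat.mod_eq_of_lt (by omega)] at h3

theorem Dk_card (hv : 0 < v) {k : ℕ} (hk : k ≤ v) (i : ℕ) : (Dk hv k i).card = k := by
  unfold Dk
  rw [Finset.card_image_of_injOn (Dk_inj hv hk i), Finset.card_range]

theorem Dk_ind (hv : 0 < v) {k : ℕ} (hk : k ≤ v) (i : ℕ) (x : Fin v) :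
    (if x ∈ Dk hv k i then (1 : ℤ) else 0) =
      ∑ j ∈ Finset.range k, if (i * k + j) % v = x.val then 1 else 0 := by
  by_cases hx : x ∈ Dk hv k i
  · rw [if_pos hx]
    obtain ⟨j, hj, hjx⟩ := Finset.mem_image.1 hx
    have hj' : (i * k + j) % v = x.val := congrArg Fin.val hjx
    rw [Finset.sum_eq_single j]
    · rw [if_pos hj']
    · intro j' hj1 hj2
      rw [if_neg]
      intro h
      apply hj2
      apply Dk_inj hv hk i (Finset.mem_coe.2 hj1) (Finset.mem_coe.2 hj)
      apply Fin.ext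
      change (i * k + j') % v = (i * k + j) % v
      rw [h, hj']
    · intro h
      exact absurd hj h
  · rw [if_neg hx]
    symm
    apply Finset.sum_eq_zero
    intro j hj
    rw [if_neg]
    intro h
    apply hx
    exact Finset.mem_image.2 ⟨j, hj, Fin.ext h⟩

theorem Dk_deg (hv : 0 < v) {k b R : ℕ} (hk : k ≤ v) (hb : b * k = R * v) (x : Fin v) :
    ∑ i ∈ Finset.range b, (if x ∈ Dk hv k i then (1 : ℤ) else 0) = R := by
  rw [Finset.sum_congr rfl (fun i _ => Dk_ind hv hk i x),
    sum_blocks (fun t => if t % v = x.val then 1 else 0), hb,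
    ← sum_blocks (fun t => if t % v = x.val then 1 else 0)]
  have h1 : ∀ i ∈ Finset.range R,
      ∑ j ∈ Finset.range v, (if (i * v + j) % v = x.val then (1 : ℤ) else 0) = 1 := by
    intro i _
    have h2 : ∀ j ∈ Finset.range v, (if (i * v + j) % v = x.val then (1 : ℤ) else 0) =
        if x.val = j then 1 else 0 := by
      intro j hj
      have hj' : j < v := by simpa using hj
      rw [Nat.mul_comm, Nat.mul_add_mod, Nat.mod_eq_of_lt hj']
      simp only [eq_comm]
    rw [Finset.sum_congr rfl h2, Finset.sum_ite_eq]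
    simp
  rw [Finset.sum_congr rfl h1]
  simp

/-- the integral design -/
theorem int_rz {k : ℕ} (hk : 2 ≤ k) (hv : k + 2 ≤ v) (h1 : (k - 1) ∣ (v - 1))
    (h2 : k * (k - 1) ∣ v * (v - 1)) : Rz (v := v) k (10 * (v : ℤ) ^ 4) (fun _ _ => 1) := by
  obtain ⟨R, hR⟩ := h1
  obtain ⟨b, hb⟩ := h2
  have hk1 : 0 < k - 1 := by omega
  have hbk : b * k = R * v := by
    rw [hR] at hb
    have : (k - 1) * (b * k) = (k - 1) * (R * v) := by
      calc (k - 1) * (b * k) = k * (k - 1) * b := by ring
        _ = v * ((k - 1) * R) := hb.symm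
        _ = (k - 1) * (R * v) := by ring
    exact Nat.eq_of_mul_eq_mul_left hk1 this
  have hv0 : 0 < v := by omega
  have hkv : k ≤ v := by omega
  have hb2 : 2 * b ≤ v * (v - 1) := by
    rw [hb]
    apply Nat.mul_le_mul_right
    nlinarith
  let ch : ℕ → Fin v → ℤ := fun i x => if x ∈ Dk hv0 k i then 1 else 0
  have hchs : ∀ i, ∑ x, ch i x = k := by
    intro i
    simp only [ch]
    rw [Finset.sum_ite_mem, Finset.univ_inter, Finset.sum_const, Dk_card hv0 hkv]
    simp
  have hchsq : ∀ i x, ch i x * ch i x = ch i x := by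
    intro i x
    simp only [ch]
    split_ifs <;> simp
  have hch0 : ∀ i x, 0 ≤ ch i x := by
    intro i x
    simp only [ch]
    split_ifs <;> simp
  have hch1 : ∀ i x, ch i x ≤ 1 := by
    intro i x
    simp only [ch]
    split_ifs <;> simp
  let w : Fin v → Fin v → ℤ := fun x y =>
    if x = y then 0 else 1 - ∑ i ∈ Finset.range b, ch i x * ch i y
  have hw : Zc w := by
    refine ⟨?_, ?_, ?_⟩
    · intro x y
      simp only [w]
      by_cases h : x = y
      · rw [if_pos h, if_pos h.symm]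
      · rw [if_neg h, if_neg (fun h' => h h'.symm)]
        congr 1
        exact Finset.sum_congr rfl (fun i _ => mul_comm _ _)
    · intro x
      simp [w]
    · intro x
      have e : ∀ y, w x y = (1 - ∑ i ∈ Finset.range b, ch i x * ch i y) -
          (if x = y then (1 - ∑ i ∈ Finset.range b, ch i x * ch i y) else 0) := by
        intro y
        simp only [w]
        split_ifs <;> ring
      rw [Finset.sum_congr rfl (fun y _ => e y), Finset.sum_sub_distrib, Finset.sum_ite_eq,
        Finset.sum_sub_distrib, Finset.sum_comm]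
      simp only [Finset.mem_univ, if_true, hchsq, ← Finset.mul_sum, hchs]
      rw [← Finset.sum_mul, Dk_deg hv0 hkv hbk x]
      simp only [Finset.sum_const, Finset.card_univ, Fintype.card_fin, nsmul_eq_mul, mul_one]
      have e3 : ((v : ℤ) - 1) = ((k : ℤ) - 1) * R := by
        have := congrArg (fun n : ℕ => (n : ℤ)) hR
        simp only [Nat.cast_mul] at this
        rw [Nat.cast_sub (by omega), Nat.cast_sub (by omega)] at this
        simpa using this
      linear_combination e3
  have hwM : ∀ x y, |w x y| ≤ 1 + (b : ℤ) := by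
    intro x y
    simp only [w]
    have h5 : 0 ≤ ∑ i ∈ Finset.range b, ch i x * ch i y :=
      Finset.sum_nonneg (fun i _ => mul_nonneg (hch0 i x) (hch0 i y))
    have h6 : ∑ i ∈ Finset.range b, ch i x * ch i y ≤ b := by
      have : ∑ i ∈ Finset.range b, ch i x * ch i y ≤ ∑ i ∈ Finset.range b, (1 : ℤ) :=
        Finset.sum_le_sum (fun i _ => mul_le_one₀ (hch1 i x) (hch0 i y) (hch1 i y))
      simpa using this
    split_ifs
    · rw [abs_zero]; positivity
    · rw [abs_le]
      constructor <;> linarith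
  have hA := hw.rz hk hv hwM (by positivity)
  have hB := Rz.sum (Finset.range b) (fun i x y => ch i x * ch i y)
    (fun i _ => Rz.block (Dk hv0 k i) (Dk_card hv0 hkv i))
  refine ((hA.add hB).mono ?_).congr ?_
  · rw [Finset.card_range]
    have hb3 : 2 * (b : ℤ) ≤ (v : ℤ) * (v - 1) := by
      have := hb2
      zify [show 1 ≤ v by omega] at this
      exact this
    have hv4 : (4 : ℤ) ≤ v := by exact_mod_cast (by omega : 4 ≤ v)
    have hM : 2 * (1 + (b : ℤ)) ≤ (v : ℤ) ^ 2 := by nlinarith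
    have h7 : (v : ℤ) * (v * ((1 + b) * 4)) ≤ 2 * (v : ℤ) ^ 4 := by
      have : (v : ℤ) ^ 2 * (2 * (1 + (b : ℤ))) ≤ (v : ℤ) ^ 2 * (v : ℤ) ^ 2 :=
        mul_le_mul_of_nonneg_left hM (by positivity)
      nlinarith
    have h8 : (v : ℤ) * (((v + 1) * (1 + b)) * 4) ≤ 4 * (v : ℤ) ^ 4 := by
      have h9 : ((v : ℤ) * (v + 1)) * (2 * (1 + (b : ℤ))) ≤ ((v : ℤ) * (v + 1)) * (v : ℤ) ^ 2 :=
        mul_le_mul_of_nonneg_left hM (by positivity)
      have h10 : (v : ℤ) * (v + 1) * (v : ℤ) ^ 2 ≤ 2 * (v : ℤ) ^ 4 := by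
        have : (0 : ℤ) ≤ (v : ℤ) ^ 3 := by positivity
        nlinarith
      nlinarith
    have h11 : (b : ℤ) * 1 ≤ (v : ℤ) ^ 4 := by
      have h12 : (b : ℤ) ≤ (v : ℤ) ^ 2 := by nlinarith
      have h13 : (1 : ℤ) ≤ (v : ℤ) ^ 2 := by nlinarith
      nlinarith
    have h14 : (0 : ℤ) ≤ (v : ℤ) ^ 4 := by positivity
    linarith
  · intro x y hxy
    simp only [w, if_neg hxy]
    ring

end IntD

theorem int_design {v k : ℕ} (hk : 2 ≤ k) (hv : k + 2 ≤ v) (h1 : (k - 1) ∣ (v - 1))
    (h2 : k * (k - 1) ∣ v * (v - 1)) (m : ℕ) (hm : 10 * v ^ 4 ≤ m) :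
    ∃ f : Finset (Fin v) → ℕ, ∀ x y : Fin v, x ≠ y →
      ∑ B ∈ (Finset.univ.powersetCard k).filter (fun B => x ∈ B ∧ y ∈ B), f B =
        1 + m * (v - 2).choose (k - 2) := by
  obtain ⟨f, hf, hs⟩ := IntD.int_rz (v := v) hk hv h1 h2
  refine ⟨fun B => (f B + m).toNat, ?_⟩
  intro x y hxy
  have hm' : 10 * (v : ℤ) ^ 4 ≤ m := by exact_mod_cast hm
  have hnn : ∀ B, ((f B + m).toNat : ℤ) = f B + m := by
    intro B
    rw [Int.toNat_of_nonneg]
    have := (abs_le.1 (hf B)).1
    linarith
  have hcard : ((Finset.univ.powersetCard k).filter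
      (fun B : Finset (Fin v) => x ∈ B ∧ y ∈ B)).card = (v - 2).choose (k - 2) := by
    have h3 : (Finset.univ.powersetCard k).filter (fun B : Finset (Fin v) => x ∈ B ∧ y ∈ B) =
        ((Finset.univ \ {x, y} : Finset (Fin v)).powersetCard (k - 2)).image
          (fun S => S ∪ {x, y}) := by
      ext B
      simp only [Finset.mem_filter, Finset.mem_powersetCard, Finset.subset_univ, true_and,
        Finset.mem_image]
      constructor
      · rintro ⟨hB, hx, hy⟩
        have hsub : ({x, y} : Finset (Fin v)) ⊆ B := by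
          intro z hz
          simp only [Finset.mem_insert, Finset.mem_singleton] at hz
          rcases hz with rfl | rfl <;> assumption
        refine ⟨B \ {x, y}, ⟨Finset.sdiff_subset_sdiff (Finset.subset_univ _) (le_refl _), ?_⟩,
          Finset.sdiff_union_of_subset hsub⟩
        rw [Finset.card_sdiff_of_subset hsub, hB, Finset.card_pair hxy]
      · rintro ⟨S, ⟨hS, hSc⟩, rfl⟩
        have hdis : Disjoint S {x, y} := by
          rw [Finset.disjoint_left]
          intro z hz hz'
          exact (Finset.mem_sdiff.1 (hS hz)).2 hz'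
        refine ⟨?_, by simp, by simp⟩
        rw [Finset.card_union_of_disjoint hdis, hSc, Finset.card_pair hxy]
        omega
    rw [h3, Finset.card_image_of_injOn, Finset.card_powersetCard,
      Finset.card_sdiff_of_subset (Finset.subset_univ _), Finset.card_univ, Fintype.card_fin,
      Finset.card_pair hxy]
    intro S hS T hT hST
    have hS' := (Finset.mem_powersetCard.1 (Finset.mem_coe.1 hS)).1
    have hT' := (Finset.mem_powersetCard.1 (Finset.mem_coe.1 hT)).1
    have key : ∀ U : Finset (Fin v), U ⊆ Finset.univ \ {x, y} → (U ∪ {x, y}) \ {x, y} = U := by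
      intro U hU
      rw [Finset.union_sdiff_right]
      apply Finset.sdiff_eq_self_of_disjoint
      rw [Finset.disjoint_left]
      intro z hz hz'
      exact (Finset.mem_sdiff.1 (hU hz)).2 hz'
    rw [← key S hS', ← key T hT']
    exact congrArg (fun U => U \ {x, y}) hST
  have : ((∑ B ∈ (Finset.univ.powersetCard k).filter (fun B => x ∈ B ∧ y ∈ B),
      (f B + m).toNat : ℕ) : ℤ) = ((1 + m * (v - 2).choose (k - 2) : ℕ) : ℤ) := by
    push_cast
    rw [Finset.sum_congr rfl (fun B _ => by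
      have := hnn B
      exact this), Finset.sum_add_distrib, hs x y hxy, Finset.sum_const, hcard]
    simp [mul_comm]
  exact_mod_cast this

end Pool.Agent.WG
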