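import Mathlib

set_option autoImplicit false

/-! Module PPOW: prime powers `≡ 1 mod N`. -/

namespace Pool.Agent.WG

theorem exists_primePow (N L : ℕ) (hN : 1 ≤ N) (hL : 1 ≤ L) :
    ∃ q, IsPrimePow q ∧ N ∣ q - 1 ∧ L ≤ q ∧ q ≤ L * (N + 1) ^ N := by
  obtain ⟨p, hp, hpN⟩ := Nat.exists_prime_and_dvd (show N + 1 ≠ 1 by omega)
  have hple : p ≤ N + 1 := Nat.le_of_dvd (by omega) hpN
  have hcop : Nat.Coprime p N := by
    rw [Nat.Prime.coprime_iff_not_dvd hp]
    intro h
    have h1 : p ∣ 1 := (Nat.dvd_add_right h).1 hpN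
    exact hp.one_lt.ne' (Nat.dvd_one.1 h1)
  have hφ : 0 < N.totient := Nat.totient_pos.2 hN
  have hφN : N.totient ≤ N := Nat.totient_le N
  have hex : ∃ j, L ≤ p ^ (N.totient * (j + 1)) := by
    refine ⟨L, ?_⟩
    have h1 : L < p ^ L := Nat.lt_pow_self hp.one_lt
    have h2 : p ^ L ≤ p ^ (N.totient * (L + 1)) := by
      apply Nat.pow_le_pow_right hp.pos
      nlinarith
    omega
  classical
  have hspec := Nat.find_spec hex
  have hstep : p ^ N.totient ≤ (N + 1) ^ N :=
    (Nat.pow_le_pow_left hple _).trans (Nat.pow_le_pow_right (by omega) hφN)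
  refine ⟨p ^ (N.totient * (Nat.find hex + 1)), ?_, ?_, hspec, ?_⟩
  · exact hp.isPrimePow.pow (by positivity)
  · have h1 : p ^ N.totient ≡ 1 [MOD N] := Nat.ModEq.pow_totient hcop
    have h2 : p ^ (N.totient * (Nat.find hex + 1)) ≡ 1 [MOD N] := by
      rw [pow_mul]
      have := h1.pow (Nat.find hex + 1)
      rwa [one_pow] at this
    exact (Nat.modEq_iff_dvd' (Nat.one_le_pow _ _ hp.pos)).1 h2.symm
  · rcases Nat.eq_zero_or_pos (Nat.find hex) with h0 | h0
    · rw [h0, zero_add, mul_one]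
      calc p ^ N.totient ≤ (N + 1) ^ N := hstep
        _ ≤ L * (N + 1) ^ N := Nat.le_mul_of_pos_left _ hL
    · obtain ⟨j, hj⟩ := Nat.exists_eq_add_of_lt h0
      have h1 : ¬ L ≤ p ^ (N.totient * (Nat.find hex - 1 + 1)) :=
        Nat.find_min hex (by omega)
      rw [Nat.sub_add_cancel h0] at h1
      have h2 : p ^ (N.totient * (Nat.find hex + 1)) =
          p ^ (N.totient * Nat.find hex) * p ^ N.totient := by
        rw [← pow_add]; ring_nf
      rw [h2]
      exact Nat.mul_le_mul (not_le.1 h1).le hstep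

end Pool.Agent.WG
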